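import Mathlib
import Pool.Graph.R_seed8.Y876.HS.An

/-! The weights of the sets of simultaneously prime forms, with a target number `r` of primes below the
number `m` of the sieve (after `Pool.Agent.Y876.HS.an`, helper876). -/

set_option autoImplicit false

open Finset Filter
open scoped ContDiff

namespace Pool.Agent.Helper50.SP

open Pool.Agent.H378R2 hiding EE
open Pool.Agent.H95R2.BG Pool.Agent.H95R2.BG.LF
open Pool.Agent.Y876.HS

theorem choice_t2 {ι κ : Type*} [Fintype ι] (α β : ℝ) (s0 : ℝ) (q : ι → ℝ) (𝒥 : Finset κ) (u v : κ → ℝ)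
    (h1 : α * s0 + β * s0 < ∑ i, q i / 4) (h2 : ∀ J ∈ 𝒥, u J < v J) :
    ∃ x : ℝ, 0 < x ∧ x < 1 / 8 ∧
      (1 + x) * (α * (s0 + x)) + (1 + x) * (β * s0) < ∑ i, ((1 / 4 - x) * q i - x) ∧
      ∀ J ∈ 𝒥, u J + x < v J := by
  have hc1 : Continuous fun x : ℝ => (1 + x) * (α * (s0 + x)) + (1 + x) * (β * s0) := by fun_prop
  have hc2 : Continuous fun x : ℝ => ∑ i, ((1 / 4 - x) * q i - x) := by fun_prop
  have h0 : (1 + (0 : ℝ)) * (α * (s0 + 0)) + (1 + (0 : ℝ)) * (β * s0) <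
      ∑ i, ((1 / 4 - (0 : ℝ)) * q i - 0) := by
    have e : ∑ i, ((1 / 4 - (0 : ℝ)) * q i - 0) = ∑ i, q i / 4 := sum_congr rfl fun i _ => by ring
    rw [e]
    linarith
  have ha := ((hc1.tendsto 0).eventually_lt (hc2.tendsto 0) h0).filter_mono
    (nhdsWithin_le_nhds (s := Set.Ioi (0 : ℝ)))
  have hb : ∀ᶠ x in nhdsWithin (0 : ℝ) (Set.Ioi 0), x < 1 / 8 :=
    (gt_mem_nhds (by norm_num : (0 : ℝ) < 1 / 8)).filter_mono nhdsWithin_le_nhds
  have hc : ∀ᶠ x in nhdsWithin (0 : ℝ) (Set.Ioi 0), ∀ J ∈ 𝒥, u J + x < v J := by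
    rw [Filter.eventually_all_finset]
    intro J hJ
    have hd : ∀ᶠ x : ℝ in nhds 0, x < v J - u J := gt_mem_nhds (sub_pos.2 (h2 J hJ))
    refine (hd.filter_mono nhdsWithin_le_nhds).mono fun x hx => ?_
    linarith
  obtain ⟨x, ⟨⟨⟨h3, h4⟩, h5⟩, h6⟩⟩ := (((ha.and hb).and hc).and self_mem_nhdsWithin).exists
  exact ⟨x, h6, h4, h3, h5⟩

theorem an2 {K0 N1 M R R' : ℕ} (m r : ℕ) (hr1 : 1 ≤ r) (hrm : r ≤ m) (hN1 : 0 < N1) (hM : M ≤ 2 * N1) (hR : R ≤ N1)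
    (F : (Fin (K0 + 1) → ℕ) → ℝ) (hF : ∀ c, F c ≠ 0 → rad c ≤ R + 1)
    (hSF : 0 < ∑ c ∈ Box (K0 + 1) M, F c ^ 2)
    (hcrit : 4 * m * N1 * ∑ c ∈ Box (K0 + 1) M, F c ^ 2 ≤ ∑ i, ∑ c ∈ Box K0 M, UU M F i c ^ 2)
    (𝒥 : Finset (Finset (Fin (K0 + 1)))) (FJ : Finset (Fin (K0 + 1)) → (Fin (K0 + 1) → ℕ) → ℝ)
    (hR' : R' < 2 * N1) (hFJ : ∀ J ∈ 𝒥, ∀ c, FJ J c ≠ 0 → rad c ≤ R' + 1)
    (hpt : ∀ J ∈ 𝒥, ∀ w : Fin (K0 + 1) → ℕ → ℝ, (∀ i ∈ J, ∀ c, w i c = 1) →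
      ∑ c ∈ Box (K0 + 1) M, FJ J c * ∏ j, w j (c j) = ∑ c ∈ Box (K0 + 1) M, F c * ∏ j, w j (c j))
    (ρ : Finset (Fin (K0 + 1)) → ℝ)
    (hρ : ∀ J ∈ 𝒥, ∑ c ∈ Box (K0 + 1) M, FJ J c ^ 2 < ρ J * ∑ c ∈ Box (K0 + 1) M, F c ^ 2)
    (A B : Fin (K0 + 1) → ℕ) (hadm : AdmissibleL A B) (δ : ℝ) (hδ : 0 < δ) :
    ∀ᶠ X : ℝ in atTop, ∃ (W : Finset (Fin (K0 + 1)) → ℝ) (S0 : ℝ), 0 < S0 ∧ (∀ T, 0 ≤ W T) ∧
      ((m : ℝ) - r + 3 / 4) * S0 ≤ ∑ T ∈ univ.filter (fun T => r ≤ T.card), (T.card : ℝ) * W T ∧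
      (∀ J ∈ 𝒥, ∑ T ∈ univ.filter (fun T => J ⊆ T), W T ≤ ρ J * S0) ∧
      ∀ T, (((Icc 1 ⌊3 * X⌋₊).filter (fun n => pat A B n = T)).card : ℝ) < X / Real.log X ^ BB (K0 + 1) →
        W T ≤ δ * S0 := by
  have hm : 1 ≤ m := hr1.trans hrm
  have hm0 : (0 : ℝ) < m := by exact_mod_cast hm
  have hm1 : (1 : ℝ) ≤ m := by exact_mod_cast hm
  have hr1' : (1 : ℝ) ≤ r := by exact_mod_cast hr1
  have hrm' : (r : ℝ) ≤ m := by exact_mod_cast hrm
  have hN1r : (0 : ℝ) < N1 := by exact_mod_cast hN1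
  obtain ⟨SF, hSFd⟩ : ∃ SF : ℝ, SF = ∑ c ∈ Box (K0 + 1) M, F c ^ 2 := ⟨_, rfl⟩
  obtain ⟨Sq, hSq⟩ : ∃ Sq : Fin (K0 + 1) → ℝ, ∀ i, Sq i = ∑ c ∈ Box K0 M, UU M F i c ^ 2 := ⟨_, fun _ => rfl⟩
  obtain ⟨SJ, hSJ⟩ : ∃ SJ : Finset (Fin (K0 + 1)) → ℝ, ∀ J, SJ J = ∑ c ∈ Box (K0 + 1) M, FJ J c ^ 2 :=
    ⟨_, fun _ => rfl⟩
  rw [← hSFd] at hSF hcrit
  have hcrit' : 4 * m * N1 * SF ≤ ∑ i, Sq i := hcrit.trans (le_of_eq (sum_congr rfl fun i _ => (hSq i).symm))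
  have hρ' : ∀ J ∈ 𝒥, SJ J < ρ J * SF := fun J hJ => by rw [hSJ, hSFd]; exact hρ J hJ
  obtain ⟨κ₀, hκd⟩ : ∃ κ₀ : ℝ, κ₀ = 1 / (8 * m) := ⟨_, rfl⟩
  have hκ0 : 0 < κ₀ := by rw [hκd]; positivity
  obtain ⟨f, β, hf, hβ⟩ := cells_exist N1 M hN1 hM κ₀ hκ0
  obtain ⟨ψ, hψ⟩ := psis_exist N1 hN1 κ₀ hκ0
  have hβ0 : 0 < β := hf.pos
  have hB0 : 0 < β ^ K0 := pow_pos hβ0 _
  obtain ⟨s0, hs0⟩ : ∃ s0 : ℝ, s0 = β ^ (K0 + 1) * SF := ⟨_, rfl⟩
  have hs00 : 0 < s0 := by rw [hs0]; positivity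
  -- the gap
  have hgap : ((r : ℝ) - 1) * s0 + ((m : ℝ) - r + 3 / 4) * s0 < ∑ i, β ^ K0 * Sq i / 4 := by
    have e1 : ∑ i, β ^ K0 * Sq i / 4 = β ^ K0 * (∑ i, Sq i) / 4 := by
      rw [mul_sum, sum_div]
    rw [e1]
    have h1 : β ^ K0 * (4 * m * N1 * SF) ≤ β ^ K0 * (∑ i, Sq i) := mul_le_mul_of_nonneg_left hcrit' hB0.le
    have h2 : (m : ℝ) * (1 - κ₀) * β ≤ m * N1 := by
      have h3 : (1 - κ₀) * β ≤ N1 := by
        have h4 : (1 - κ₀) * β ≤ (1 - κ₀) * ((1 + κ₀) * N1) := by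
          refine mul_le_mul_of_nonneg_left hβ ?_
          have : κ₀ ≤ 1 := by
            rw [hκd, div_le_one (by positivity)]
            linarith
          linarith
        have h5 : (1 - κ₀) * ((1 + κ₀) * N1) = N1 - κ₀ ^ 2 * N1 := by ring
        have h6 : 0 ≤ κ₀ ^ 2 * N1 := by positivity
        linarith
      calc (m : ℝ) * (1 - κ₀) * β = m * ((1 - κ₀) * β) := by ring
        _ ≤ m * N1 := mul_le_mul_of_nonneg_left h3 hm0.le
    have h7 : (m : ℝ) * κ₀ = 1 / 8 := by rw [hκd]; field_simp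
    have h8 : β ^ K0 * SF * ((m : ℝ) * (1 - κ₀) * β) ≤ β ^ K0 * SF * (m * N1) :=
      mul_le_mul_of_nonneg_left h2 (by positivity)
    have h9 : β ^ K0 * SF * ((m : ℝ) * (1 - κ₀) * β) = (m - 1 / 8) * s0 := by
      rw [hs0, ← h7]
      ring
    rw [h9] at h8
    have h10 : β ^ K0 * SF * (m * N1) = β ^ K0 * (4 * m * N1 * SF) / 4 := by ring
    rw [h10] at h8
    have h11 : β ^ K0 * (4 * m * N1 * SF) / 4 ≤ β ^ K0 * (∑ i, Sq i) / 4 := by linarith
    have h12 : ((r : ℝ) - 1) * s0 + ((m : ℝ) - r + 3 / 4) * s0 = (m - 1 / 8) * s0 - 1 / 8 * s0 := by ring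
    linarith
  obtain ⟨t, ht0, ht8, htg, htJ⟩ := choice_t2 ((r : ℝ) - 1) ((m : ℝ) - r + 3 / 4) s0 (fun i => β ^ K0 * Sq i) 𝒥
    (fun J => β ^ (K0 + 1) * SJ J) (fun J => ρ J * s0) hgap (fun J hJ => by
      rw [hs0]
      have := mul_lt_mul_of_pos_left (hρ' J hJ) (pow_pos hβ0 (K0 + 1))
      linarith)
  -- choice of D
  have hRlt : R < 2 * N1 := by omega
  obtain ⟨D1, hD1⟩ := lim_wwL hN1 hM hRlt hf F hF t ht0 ht8 t ht0
  obtain ⟨D2, hD2⟩ := lim_qqL hN1 hM hRlt hf F hF (fun _ _ => 1)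
    (fun s s' h1 h2 h3 => by omega) t ht0 ht8 t ht0
  choose D3 hD3 using fun (J : Finset (Fin (K0 + 1))) (hJ : J ∈ 𝒥) =>
    lim_wwL hN1 hM hR' hf (FJ J) (hFJ J hJ) t ht0 ht8 t ht0
  obtain ⟨D, hD⟩ : ∃ D, D = D1 + D2 + ∑ J ∈ 𝒥.attach, D3 J.1 J.2 + (∑ i, ∑ j, A i * B j + ∑ i, A i) := ⟨_, rfl⟩
  have hDl : ∀ J (hJ : J ∈ 𝒥), D3 J hJ ≤ D := by
    intro J hJ
    have : D3 J hJ ≤ ∑ J ∈ 𝒥.attach, D3 J.1 J.2 :=
      Finset.single_le_sum (f := fun J : {x // x ∈ 𝒥} => D3 J.1 J.2) (fun _ _ => Nat.zero_le _)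
        (mem_attach 𝒥 ⟨J, hJ⟩)
    omega
  have hsep : SepL D A B := critL_sep A B hadm.1 hadm.2.1 D (by omega)
  obtain ⟨a, ha⟩ := critL_class A B hadm.2.2 D
  obtain ⟨a0, ha0⟩ : ∃ a0 : ℕ, a0 = ∑ i, A i := ⟨_, rfl⟩
  have hAa0 : ∀ i, A i ≤ a0 := fun i => by
    rw [ha0]; exact Finset.single_le_sum (f := A) (fun _ _ => Nat.zero_le _) (mem_univ i)
  have ha01 : 1 ≤ a0 := (hadm.1 0).trans (hAa0 0)
  have ha01' : (1 : ℝ) ≤ a0 := by exact_mod_cast ha01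
  have hK1 : (0 : ℝ) < ((K0 + 1 : ℕ) : ℝ) := by positivity
  have evP := pointwiseL (κ₀ := κ₀) hN1 hM hRlt hf hψ F hF 0 (fun _ => 0) (fun _ => le_rfl) (fun _ _ => 0)
    (fun _ _ => 1) (fun Y => by
      simp only [one_mul, Finset.univ_eq_empty, Finset.sum_empty, add_zero]
      rw [pow_two, Finset.sum_mul_sum]) t ht0 ht8 D A B hadm.1 a0 hAa0
  have evW := hD1 D (by omega) A B hsep a
  have evQ : ∀ᶠ X : ℝ in atTop, ∀ i, _ :=
    eventually_all.2 fun i => hD2 D (by omega) A B hsep i a (ha i)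
  have evJ : ∀ᶠ X : ℝ in atTop, ∀ J ∈ 𝒥, ∑ n ∈ Icc 1 ⌊3 * X⌋₊, nu X (WD D) a n * ww t D X f M (FJ J) A B n ^ 2 ≤
      NN t D X (K0 + 1) * (β ^ (K0 + 1) * SJ J + t) := by
    rw [Filter.eventually_all_finset]
    intro J hJ
    rw [hSJ]
    exact hD3 J hJ D (hDl J hJ) A B hsep a
  have evN := NN_pos t (by linarith) D (K0 + 1)
  have evN2 := NN_ge_log t (by linarith) D (K0 + 1)
  have evL := critL_log a0 ha01 t ht0
  have evU := moment hf F t D a A B hadm.1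
  have evB : ∀ᶠ X : ℝ in atTop, ((∑ i, B i : ℕ) : ℝ) + 3 ≤ X := eventually_ge_atTop _
  have evT : ∀ᶠ X : ℝ in atTop, 1 / (δ * s0) ≤ Real.log X :=
    Real.tendsto_log_atTop.eventually_ge_atTop _
  filter_upwards [evP, evW, evQ, evJ, evN, evN2, evL, evU, evB, evT] with X hP hW hQ hJJ hN hN2 hL hU hB hT
  have hBn : (0 : ℝ) ≤ ((∑ i, B i : ℕ) : ℝ) := Nat.cast_nonneg _
  have hX3 : (3 : ℝ) ≤ X := by linarith
  have hX0 : 0 < X := by linarith
  have hlogX : 0 < Real.log X := Real.log_pos (by linarith)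
  have h4X : (1 : ℝ) ≤ 4 * a0 * X := by nlinarith
  have hlog4 : 0 ≤ Real.log (4 * a0 * X) := Real.log_nonneg h4X
  have hlog4' : 0 < Real.log (4 * a0 * X) := Real.log_pos (by nlinarith)
  obtain ⟨LG, hLG⟩ : ∃ LG : ℝ, LG = Real.log (4 * a0 * X) := ⟨_, rfl⟩
  rw [← hLG] at hlog4 hL hlog4'
  -- the weight of an integer
  obtain ⟨om, hom⟩ : ∃ om : ℕ → ℝ, ∀ n, om n = nu X (WD D) a n * ww t D X f M F A B n ^ 2 := ⟨_, fun _ => rfl⟩
  have hom0 : ∀ n, 0 ≤ om n := fun n => by rw [hom]; exact mul_nonneg (nu_nonneg _ _ _ _) (sq_nonneg _)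
  obtain ⟨W, hWd⟩ : ∃ W : Finset (Fin (K0 + 1)) → ℝ, ∀ T, W T =
      ∑ n ∈ (Icc 1 ⌊3 * X⌋₊).filter (fun n => pat A B n = T), om n := ⟨_, fun _ => rfl⟩
  have hnuX : ∀ n : ℕ, (n : ℝ) ≤ X → nu X (WD D) a n = 0 := by
    intro n hnX
    unfold nu
    split_ifs
    · apply Phi_eq_zero_of_le (by positivity)
      rw [div_le_one hX0]; exact hnX
    · rfl
  have hnu1 : ∀ n, nu X (WD D) a n ≤ 1 := by
    intro n
    unfold nu
    split_ifs
    · exact Phi_le_one _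
    · exact zero_le_one
  -- sums over sets of patterns
  have hsumV : ∀ (P : Finset (Fin (K0 + 1)) → Prop) [DecidablePred P] (v : Finset (Fin (K0 + 1)) → ℝ),
      ∑ T ∈ univ.filter P, v T * W T =
      ∑ n ∈ (Icc 1 ⌊3 * X⌋₊).filter (fun n => P (pat A B n)), v (pat A B n) * om n := by
    intro P _ v
    have e1 : ∀ T, v T * W T = ∑ n ∈ (Icc 1 ⌊3 * X⌋₊).filter (fun n => pat A B n = T), v (pat A B n) * om n := by
      intro T
      rw [hWd, mul_sum]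
      refine sum_congr rfl fun n hn => ?_
      rw [(mem_filter.1 hn).2]
    simp_rw [e1]
    rw [← Finset.sum_biUnion]
    · congr 1
      ext n
      simp only [mem_biUnion, mem_filter, mem_univ, true_and]
      constructor
      · rintro ⟨T, h1, h2, rfl⟩
        exact ⟨h2, h1⟩
      · rintro ⟨h1, h2⟩
        exact ⟨_, h2, h1, rfl⟩
    · intro T _ T' _ hTT
      rw [Function.onFun, Finset.disjoint_left]
      intro n h1 h2
      exact hTT ((mem_filter.1 h1).2.symm.trans (mem_filter.1 h2).2)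
  have hsumW : ∀ (P : Finset (Fin (K0 + 1)) → Prop) [DecidablePred P], ∑ T ∈ univ.filter P, W T =
      ∑ n ∈ (Icc 1 ⌊3 * X⌋₊).filter (fun n => P (pat A B n)), om n := by
    intro P _
    simp_rw [hWd]
    rw [← Finset.sum_biUnion]
    · congr 1
      ext n
      simp only [mem_biUnion, mem_filter, mem_univ, true_and]
      constructor
      · rintro ⟨T, h1, h2, rfl⟩
        exact ⟨h2, h1⟩
      · rintro ⟨h1, h2⟩
        exact ⟨_, h2, h1, rfl⟩
    · intro T _ T' _ hTT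
      rw [Function.onFun, Finset.disjoint_left]
      intro n h1 h2
      exact hTT ((mem_filter.1 h1).2.symm.trans (mem_filter.1 h2).2)
  obtain ⟨N, hNdef⟩ : ∃ N : ℝ, N = NN t D X (K0 + 1) := ⟨_, rfl⟩
  rw [← hNdef] at hN hN2
  refine ⟨W, N * s0, mul_pos hN hs00, fun T => ?_, ?_, ?_, ?_⟩
  · rw [hWd]
    exact sum_nonneg fun n _ => hom0 n
  · -- the lower bound
    rw [hsumV (fun T => r ≤ T.card) (fun T => (T.card : ℝ))]
    obtain ⟨G, hG⟩ : ∃ G : ℝ, G = ∑ n ∈ (Icc 1 ⌊3 * X⌋₊).filter (fun n => r ≤ (pat A B n).card),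
        ((pat A B n).card : ℝ) * om n := ⟨_, rfl⟩
    have hG0 : 0 ≤ G := by rw [hG]; exact sum_nonneg fun n _ => mul_nonneg (Nat.cast_nonneg _) (hom0 n)
    rw [← hG]
    obtain ⟨AA, hA⟩ : ∃ AA : ℝ, AA = ∑ n ∈ Icc 1 ⌊3 * X⌋₊, om n := ⟨_, rfl⟩
    have hA0 : 0 ≤ AA := by rw [hA]; exact sum_nonneg fun n _ => hom0 n
    obtain ⟨Q, hQd⟩ : ∃ Q : Fin (K0 + 1) → ℝ, ∀ i, Q i = ∑ n ∈ Icc 1 ⌊3 * X⌋₊,
        nu X (WD D) a n * (th (A i * n + B i) * qq t D X f M F A B i (fun _ _ => 1) n) := ⟨_, fun _ => rfl⟩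
    have hthi : ∀ n : ℕ, (n : ℝ) ≤ 3 * X → ∀ i, th (A i * n + B i) ≤ LG := by
      intro n hn3 i
      unfold th
      split_ifs with hp
      · rw [hLG]
        apply Real.log_le_log
        · have := hp.pos
          exact_mod_cast this
        · have h1 : B i ≤ ∑ i, B i :=
            Finset.single_le_sum (f := B) (fun _ _ => Nat.zero_le _) (mem_univ i)
          have h2 : (B i : ℝ) ≤ ((∑ i, B i : ℕ) : ℝ) := by exact_mod_cast h1
          have h3 : (A i : ℝ) ≤ a0 := by exact_mod_cast hAa0 i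
          have h5 : (A i : ℝ) * n ≤ a0 * (3 * X) :=
            mul_le_mul h3 hn3 (Nat.cast_nonneg _) (Nat.cast_nonneg _)
          have h6 : 1 * X ≤ (a0 : ℝ) * X := mul_le_mul_of_nonneg_right ha01' hX0.le
          have h7 : ((A i * n + B i : ℕ) : ℝ) = (A i : ℝ) * n + B i := by push_cast; ring
          rw [h7]
          linarith
      · exact hlog4
    have hpt1 : ∀ n ∈ Icc 1 ⌊3 * X⌋₊,
        ∑ i, nu X (WD D) a n * (th (A i * n + B i) * qq t D X f M F A B i (fun _ _ => 1) n) ≤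
          LG * (((r : ℝ) - 1) * om n + (if r ≤ (pat A B n).card then ((pat A B n).card : ℝ) * om n else 0)) := by
      intro n hn
      have hn3 : (n : ℝ) ≤ 3 * X := by
        have := (Finset.mem_Icc.1 hn).2
        exact (Nat.le_floor_iff (by linarith)).1 this
      by_cases hnX : (n : ℝ) ≤ X
      · have h0 := hnuX n hnX
        have h1 : om n = 0 := by rw [hom, h0, zero_mul]
        simp only [h0, h1, zero_mul, mul_zero, Finset.sum_const_zero, ite_self, add_zero, le_refl]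
      push Not at hnX
      have h1 : ∑ i, nu X (WD D) a n * (th (A i * n + B i) * qq t D X f M F A B i (fun _ _ => 1) n) ≤
          (∑ i, th (A i * n + B i)) * om n := by
        rw [sum_mul]
        refine sum_le_sum fun i _ => ?_
        have h2 := hP n hnX hn3 i
        simp only [Finset.univ_eq_empty, Finset.sum_empty, mul_zero, sub_zero] at h2
        rw [hom]
        calc _ ≤ nu X (WD D) a n * (th (A i * n + B i) * ww t D X f M F A B n ^ 2) :=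
              mul_le_mul_of_nonneg_left h2 (nu_nonneg _ _ _ _)
          _ = _ := by ring
      have h3 : ∑ i, th (A i * n + B i) ≤ ((pat A B n).card : ℝ) * LG := by
        calc ∑ i, th (A i * n + B i) ≤ ∑ i, (if (A i * n + B i).Prime then LG else 0) := by
              refine sum_le_sum fun i _ => ?_
              by_cases hp : (A i * n + B i).Prime
              · rw [if_pos hp]; exact hthi n hn3 i
              · rw [if_neg hp]; unfold th; rw [if_neg hp]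
          _ = _ := by
              rw [← Finset.sum_filter, Finset.sum_const, nsmul_eq_mul]
              unfold pat
              congr!
      have h4 : ((pat A B n).card : ℝ) * om n ≤
          ((r : ℝ) - 1) * om n + (if r ≤ (pat A B n).card then ((pat A B n).card : ℝ) * om n else 0) := by
        by_cases hc : r ≤ (pat A B n).card
        · rw [if_pos hc]
          have h7 : 0 ≤ ((r : ℝ) - 1) * om n := mul_nonneg (by linarith) (hom0 n)
          linarith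
        · rw [if_neg hc, add_zero]
          apply mul_le_mul_of_nonneg_right _ (hom0 n)
          have h5 : (pat A B n).card + 1 ≤ r := by omega
          have h6 : ((pat A B n).card : ℝ) + 1 ≤ r := by exact_mod_cast h5
          linarith
      calc _ ≤ (∑ i, th (A i * n + B i)) * om n := h1
        _ ≤ (((pat A B n).card : ℝ) * LG) * om n := mul_le_mul_of_nonneg_right h3 (hom0 n)
        _ = LG * (((pat A B n).card : ℝ) * om n) := by ring
        _ ≤ _ := mul_le_mul_of_nonneg_left h4 hlog4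
    have hsum := Finset.sum_le_sum hpt1
    rw [Finset.sum_comm, ← Finset.mul_sum, Finset.sum_add_distrib, ← Finset.mul_sum,
      ← Finset.sum_filter, ← hA, ← hG] at hsum
    have hW' : AA ≤ N * (s0 + t) := by
      rw [hA, hNdef, hs0, hSFd]
      refine le_trans (le_of_eq (sum_congr rfl fun n _ => hom n)) hW
    have hQ' : ∀ i, N * Real.log X * ((1 / 4 - t) * (β ^ K0 * Sq i) - t) ≤ Q i := by
      intro i
      rw [hNdef, hSq i, hQd i]
      have := hQ i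
      simpa only [one_mul] using this
    have h3 : N * Real.log X * ∑ i, ((1 / 4 - t) * (β ^ K0 * Sq i) - t) ≤ ∑ i, Q i := by
      rw [Finset.mul_sum]
      exact Finset.sum_le_sum fun i _ => hQ' i
    have h4 : ∑ i, Q i ≤ LG * (((r : ℝ) - 1) * AA + G) := by
      refine le_trans (le_of_eq (sum_congr rfl fun i _ => hQd i)) hsum
    have h5 : LG * (((r : ℝ) - 1) * AA + G) ≤
        ((1 + t) * Real.log X) * (((r : ℝ) - 1) * (N * (s0 + t)) + G) := by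
      have h6 : ((r : ℝ) - 1) * AA ≤ (r - 1) * (N * (s0 + t)) := mul_le_mul_of_nonneg_left hW' (by linarith)
      have h7 : 0 ≤ ((r : ℝ) - 1) * AA := mul_nonneg (by linarith) hA0
      exact mul_le_mul hL (by linarith) (by linarith) (by positivity)
    have h9 : N * Real.log X * ((1 + t) * (((r : ℝ) - 1) * (s0 + t)) + (1 + t) * (((m : ℝ) - r + 3 / 4) * s0)) <
        N * Real.log X * ∑ i, ((1 / 4 - t) * (β ^ K0 * Sq i) - t) :=
      mul_lt_mul_of_pos_left htg (mul_pos hN hlogX)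
    have h10 : N * Real.log X * ((1 + t) * (((r : ℝ) - 1) * (s0 + t)) + (1 + t) * (((m : ℝ) - r + 3 / 4) * s0)) ≤
        ((1 + t) * Real.log X) * (((r : ℝ) - 1) * (N * (s0 + t)) + G) :=
      (h9.le.trans h3).trans (h4.trans h5)
    have h11 : ((1 + t) * Real.log X) * (((r : ℝ) - 1) * (N * (s0 + t)) + ((m : ℝ) - r + 3 / 4) * (N * s0)) ≤
        ((1 + t) * Real.log X) * (((r : ℝ) - 1) * (N * (s0 + t)) + G) := by
      refine le_trans (le_of_eq ?_) h10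
      ring
    have h12 : 0 < (1 + t) * Real.log X := by positivity
    have h13 := le_of_mul_le_mul_left h11 h12
    linarith
  · -- the upper bounds
    intro J hJ
    rw [hsumW (fun T => J ⊆ T)]
    have h1 : ∑ n ∈ (Icc 1 ⌊3 * X⌋₊).filter (fun n => J ⊆ pat A B n), om n ≤
        ∑ n ∈ Icc 1 ⌊3 * X⌋₊, nu X (WD D) a n * ww t D X f M (FJ J) A B n ^ 2 := by
      refine le_trans (sum_le_sum (g := fun n => nu X (WD D) a n * ww t D X f M (FJ J) A B n ^ 2)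
        fun n hn => ?_)
        (sum_le_sum_of_subset_of_nonneg (filter_subset _ _) fun n _ _ =>
          mul_nonneg (nu_nonneg _ _ _ _) (sq_nonneg _))
      obtain ⟨hn1, hn2⟩ := mem_filter.1 hn
      rw [hom]
      by_cases hnX : (n : ℝ) ≤ X
      · rw [hnuX n hnX, zero_mul, zero_mul]
      push Not at hnX
      have hR1 : 1 ≤ Rt t X := C1_Rt_pos t ht8 X (by linarith)
      have hw : ww t D X f M (FJ J) A B n = ww t D X f M F A B n := by
        unfold LF.ww LF.prodv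
        refine hpt J hJ (fun j c => vv t D X (f c) ((A j : ℤ) * n + B j)) fun i hi c => ?_
        have hp : (A i * n + B i).Prime := (mem_pat A B n i).1 (hn2 hi)
        have hRlt' : Rt t X < A i * n + B i := by
          have h1 := C1_Rt_lt t ht0 X (by linarith)
          have h2 : (Rt t X : ℝ) < (n : ℝ) := by linarith
          have h3 : Rt t X < n := by exact_mod_cast h2
          have h4 : n ≤ A i * n := Nat.le_mul_of_pos_left n (hadm.1 i)
          omega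
        have h5 : ((A i : ℤ) * (n : ℤ) + (B i : ℤ)) = ((A i * n + B i : ℕ) : ℤ) := by push_cast; ring
        show vv t D X (f c) ((A i : ℤ) * n + B i) = 1
        unfold vv
        rw [h5, VV_prime _ _ hR1 _ _ _ hp hRlt', hf.one]
      rw [hw]
    have h2 : N * (β ^ (K0 + 1) * SJ J + t) ≤ N * (ρ J * s0) :=
      mul_le_mul_of_nonneg_left (htJ J hJ).le hN.le
    have h3 := hJJ J hJ
    rw [← hNdef] at h3
    linarith
  · -- the rare patterns
    intro T hT'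
    rw [hWd]
    obtain ⟨ℓ, hℓ⟩ : ∃ ℓ : ℝ, ℓ = Real.log X := ⟨_, rfl⟩
    rw [← hℓ] at hT' hT hU hN2 hlogX
    obtain ⟨Cn, hCn⟩ : ∃ Cn : ℝ, Cn = (((Icc 1 ⌊3 * X⌋₊).filter (fun n => pat A B n = T)).card : ℝ) := ⟨_, rfl⟩
    rw [← hCn] at hT'
    have hCS : (∑ n ∈ (Icc 1 ⌊3 * X⌋₊).filter (fun n => pat A B n = T), om n) ^ 2 ≤
        Cn * (X * ℓ ^ (EE (K0 + 1) + 1)) := by
      have h1 := sq_sum_le_card_mul_sum_sq (s := (Icc 1 ⌊3 * X⌋₊).filter (fun n => pat A B n = T)) (f := om)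
      rw [← hCn] at h1
      refine h1.trans (mul_le_mul_of_nonneg_left ?_ (by rw [hCn]; exact Nat.cast_nonneg _))
      calc ∑ n ∈ (Icc 1 ⌊3 * X⌋₊).filter (fun n => pat A B n = T), om n ^ 2
          ≤ ∑ n ∈ Icc 1 ⌊3 * X⌋₊, om n ^ 2 :=
            sum_le_sum_of_subset_of_nonneg (filter_subset _ _) fun n _ _ => sq_nonneg _
        _ = ∑ n ∈ Icc 1 ⌊3 * X⌋₊, (nu X (WD D) a n * ww t D X f M F A B n ^ 2) ^ 2 :=
            sum_congr rfl fun n _ => by rw [hom]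
        _ ≤ _ := hU
    have hM0 : 0 < X * ℓ ^ (EE (K0 + 1) + 1) := by positivity
    have h2 : (∑ n ∈ (Icc 1 ⌊3 * X⌋₊).filter (fun n => pat A B n = T), om n) ^ 2 ≤
        (X / ℓ ^ (K0 + 3)) ^ 2 := by
      refine hCS.trans ((mul_le_mul_of_nonneg_right hT'.le hM0.le).trans (le_of_eq ?_))
      have e1 : ℓ ^ BB (K0 + 1) = ℓ ^ (EE (K0 + 1) + 1) * (ℓ ^ (K0 + 3)) ^ 2 := by
        rw [← pow_mul, ← pow_add]
        congr 1
        unfold BB
        ring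
      rw [e1]
      field_simp
    have h3 : ∑ n ∈ (Icc 1 ⌊3 * X⌋₊).filter (fun n => pat A B n = T), om n ≤ X / ℓ ^ (K0 + 3) :=
      le_of_sq_le_sq h2 (by positivity)
    have h4 : 1 ≤ δ * s0 * ℓ := by
      rw [div_le_iff₀ (by positivity)] at hT
      linarith
    have h5 : X / ℓ ^ (K0 + 3) ≤ δ * s0 * (X / ℓ ^ (K0 + 1 + 1)) := by
      have e2 : δ * s0 * (X / ℓ ^ (K0 + 1 + 1)) = (δ * s0 * ℓ) * (X / ℓ ^ (K0 + 3)) := by
        rw [show K0 + 3 = (K0 + 1 + 1) + 1 by ring, pow_succ]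
        field_simp
        ring
      rw [e2]
      exact le_mul_of_one_le_left (by positivity) h4
    have h6 : δ * s0 * (X / ℓ ^ (K0 + 1 + 1)) ≤ δ * s0 * N := mul_le_mul_of_nonneg_left hN2 (by positivity)
    linarith

end Pool.Agent.Helper50.SP
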