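import Mathlib
import Pool.Graph.R_seed8.Y876.HS.Core
import Pool.Agent.Helper50.SP.An2

/-! The weights of the exact patterns of the sieve of Maynard and Tao with the explicit parameters of
`Pool.Agent.H358R5`, with upper bounds for ALL sets `J` of at most `m` forms, in which the level of the
upper bound sieve is adapted to the size of `J` (after `Pool.Agent.Y876.HS.core`, helper876). -/

set_option autoImplicit false

open Finset Filter

namespace Pool.Agent.Helper50.SP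

open Pool.Agent.H95R2.BG Pool.Agent.H95R2.BG.LF
open Pool.Agent.H358R5 (g D bm Fw)
open Pool.Agent.Y876.HS

theorem core2 (m r K : ℕ) (hm : 2 ≤ m) (hr : 1 ≤ r) (hrm : r ≤ m)
    (hK1 : 4 * (m : ℝ) + 29 / 50 ≤ Real.log K) (hK2 : Real.log K ≤ 4 * m + 1)
    (A B : Fin K → ℕ) (hadm : AdmissibleL A B) (δ : ℝ) (hδ0 : 0 < δ) :
    ∀ᶠ X : ℝ in atTop, ∃ (W : Finset (Fin K) → ℝ) (S0 : ℝ), 0 < S0 ∧ (∀ T, 0 ≤ W T) ∧
      ((m : ℝ) - r + 3 / 4) * S0 ≤ ∑ T ∈ univ.filter (fun T => r ≤ T.card), (T.card : ℝ) * W T ∧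
      (∀ J : Finset (Fin K), 1 ≤ J.card → J.card ≤ m →
        ∑ T ∈ univ.filter (fun T => J ⊆ T), W T ≤ (24 * (m : ℝ) * J.card / K) ^ J.card * S0) ∧
      ∀ T, T ∉ GX A B X → W T ≤ δ * S0 := by
  classical
  obtain _ | K0 := K
  · exfalso
    have hm' : (2 : ℝ) ≤ m := by exact_mod_cast hm
    simp at hK1
    linarith
  have hm' : (2 : ℝ) ≤ m := by exact_mod_cast hm
  have hK' : 4 * (m : ℝ) + 29 / 50 ≤ Real.log ((K0 : ℝ) + 1) := by
    push_cast at hK1
    exact hK1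
  have hKbig : 2 ≤ K0 + 1 := by
    by_contra hcon
    have : K0 = 0 := by omega
    subst this
    simp at hK'
    linarith
  have hKm : m ≤ K0 + 1 := by
    have h1 : (4 * (m : ℝ) + 29 / 50) + 1 ≤ Real.exp (4 * (m : ℝ) + 29 / 50) := Real.add_one_le_exp _
    have h2 : Real.exp (4 * (m : ℝ) + 29 / 50) ≤ (K0 : ℝ) + 1 := by
      rw [← Real.le_log_iff_exp_le (by positivity)]
      exact hK'
    have h3 : (m : ℝ) ≤ ((K0 + 1 : ℕ) : ℝ) := by push_cast; linarith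
    exact_mod_cast h3
  obtain ⟨L, hL⟩ : ∃ L : ℕ, L = 100 * (K0 + 1) := ⟨_, rfl⟩
  have hL1 : 1 ≤ L := by omega
  have hL100 : 100 ≤ L := by omega
  have hbm : 8 ≤ bm m := by
    unfold bm
    have : 0 ≤ 32 * (m : ℝ) ^ 2 * Real.exp (-(4 * m)) := by positivity
    linarith
  have hbm4 : 4 * (m : ℝ) ≤ bm m := by
    unfold bm
    have : 0 ≤ 32 * (m : ℝ) ^ 2 * Real.exp (-(4 * m)) := by positivity
    linarith
  have hLr : (100 : ℝ) ≤ L := by exact_mod_cast hL100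
  have hK0r : (0 : ℝ) ≤ K0 := Nat.cast_nonneg _
  have hLK : (200 : ℝ) ≤ (L : ℝ) * ((K0 : ℝ) + 1) := by
    have h2 : (2 : ℝ) ≤ (K0 : ℝ) + 1 := by exact_mod_cast hKbig
    nlinarith
  obtain ⟨N, hN⟩ : ∃ N : ℕ, N = ⌈bm m * ((L : ℝ) * ((K0 : ℝ) + 1))⌉₊ := ⟨_, rfl⟩
  have hpos : 0 ≤ bm m * ((L : ℝ) * ((K0 : ℝ) + 1)) := by nlinarith
  have hN1 : bm m * ((L : ℝ) * ((K0 : ℝ) + 1)) ≤ N := by rw [hN]; exact Nat.le_ceil _
  have hN2 : (N : ℝ) ≤ bm m * ((L : ℝ) * ((K0 : ℝ) + 1)) + 1 := by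
    rw [hN]; exact (Nat.ceil_lt_add_one hpos).le
  have key := Pool.Agent.H358R5.ASM_full m L K0 N hm hK' (by rw [hL]) hN1 hN2
  have hN8LK : 8 * (L * (K0 + 1)) ≤ N := by
    have h1 : 8 * ((L : ℝ) * ((K0 : ℝ) + 1)) ≤ N := by nlinarith
    exact_mod_cast h1
  have hN4 : 4 * (m : ℝ) * ((L : ℝ) * ((K0 : ℝ) + 1)) ≤ N :=
    (mul_le_mul_of_nonneg_right hbm4 (by positivity)).trans hN1
  have hN8 : 8 ≤ N := by
    have : 1 ≤ L * (K0 + 1) := Nat.mul_pos hL1 (Nat.succ_pos _)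
    omega
  have hKN : K0 + 1 ≤ N := by
    have : K0 + 1 ≤ L * (K0 + 1) := Nat.le_mul_of_pos_left _ hL1
    omega
  have hDpos : 0 < D L (K0 + 1) N := (Pool.Agent.H358R5.LCD_full L (K0 + 1) hL1).2.2.2.1 N hKN
  have hBox : ∀ k M : ℕ, Box k M = Fintype.piFinset (fun _ : Fin k => range M) := fun _ _ => rfl
  have e1 : ∑ c ∈ Box (K0 + 1) N, Fw L N c ^ 2 = D L (K0 + 1) N := by
    rw [hBox]; exact Pool.Agent.H358R5.FSQ_proof Pool.Agent.H358R5.BOX_proof L N (K0 + 1)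
  -- the profile
  obtain ⟨l, hl⟩ : ∃ l : ℕ → ℕ, ∀ j, l j = (N - 2) / j := ⟨_, fun _ => rfl⟩
  have hml : ∀ j, j * l j ≤ N - 2 := fun j => by rw [hl]; exact Nat.mul_div_le _ _
  have hlbig : ∀ j, 1 ≤ j → j ≤ m → 39 / 10 * (m : ℝ) * ((L : ℝ) * ((K0 : ℝ) + 1)) ≤ j * l j := by
    intro j hj1 hj2
    have h1 : N - 2 < j * (l j + 1) := by
      rw [hl]
      exact Nat.lt_mul_div_succ _ hj1
    have h2 : (N : ℝ) < j * (l j + 1) + 2 := by
      have : N < j * (l j + 1) + 2 := by omega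
      exact_mod_cast this
    have hj2' : (j : ℝ) ≤ m := by exact_mod_cast hj2
    have h5 : (20 : ℝ) * m ≤ 1 / 10 * (m : ℝ) * ((L : ℝ) * ((K0 : ℝ) + 1)) := by nlinarith
    nlinarith
  have hl1 : ∀ j, 1 ≤ j → j ≤ m → 1 ≤ l j := by
    intro j hj1 hj2
    have h1 := hlbig j hj1 hj2
    by_contra hcon
    have h2 : l j = 0 := by omega
    rw [h2] at h1
    have h3 : 0 < 39 / 10 * (m : ℝ) * ((L : ℝ) * ((K0 : ℝ) + 1)) := by positivity
    simp at h1
    linarith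
  have hlN : ∀ j, 1 ≤ j → l j ≤ N := by
    intro j hj
    have h1 := hml j
    have : l j ≤ j * l j := Nat.le_mul_of_pos_left (l j) hj
    omega
  obtain ⟨u, hu⟩ : ∃ u : ℕ → ℕ → ℝ, ∀ j t, u j t = if t < l j then 1 / (l j : ℝ) else 0 := ⟨_, fun _ _ => rfl⟩
  have hu0 : ∀ j t, 0 ≤ u j t := by
    intro j t
    rw [hu]
    split_ifs
    · positivity
    · exact le_rfl
  have hfil : ∀ j, 1 ≤ j → (range N).filter (fun t => t < l j) = range (l j) := by
    intro j hj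
    have := hlN j hj
    ext t
    simp only [mem_filter, mem_range]
    omega
  have hu1 : ∀ j, 1 ≤ j → j ≤ m → ∑ t ∈ range N, u j t = 1 := by
    intro j hj hj2
    have hl0 : (0 : ℝ) < l j := by exact_mod_cast hl1 j hj hj2
    simp_rw [hu]
    rw [← sum_filter, hfil j hj, sum_const, card_range, nsmul_eq_mul]
    field_simp
  obtain ⟨b, hb⟩ : ∃ b : ℝ, b = ∑ c ∈ range N, g L (c + 1) := ⟨_, rfl⟩
  have hb0 : 0 ≤ b := by rw [hb]; exact sum_nonneg fun _ _ => g_nonneg _ _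
  have hb6 : b ≤ 6 * m := by
    rw [hb]
    refine b_lt m (K0 + 1) L N hm hK2 hKbig hL1 ?_
    push_cast
    exact hN2
  have hu2 : ∀ j, 1 ≤ j → j ≤ m → ∑ t ∈ range N, (b * u j t) ^ 2 = b ^ 2 / l j := by
    intro j hj hj2
    have hl0 : (0 : ℝ) < l j := by exact_mod_cast hl1 j hj hj2
    have h1 : ∀ t, (b * u j t) ^ 2 = if t < l j then b ^ 2 / (l j : ℝ) ^ 2 else 0 := by
      intro t
      rw [hu]
      split_ifs
      · field_simp
      · ring
    simp_rw [h1]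
    rw [← sum_filter, hfil j hj, sum_const, card_range, nsmul_eq_mul]
    field_simp
  -- the weights
  obtain ⟨FJ, hFJ⟩ : ∃ FJ : Finset (Fin (K0 + 1)) → (Fin (K0 + 1) → ℕ) → ℝ,
      ∀ J, FJ J = El N (u J.card) (Fw L N) J.toList := ⟨_, fun _ => rfl⟩
  have hbd : ∀ J c, 0 ≤ FJ J c ∧ FJ J c ≤ GJ L N b (u J.card) J c := by
    intro J c
    have h := El_le L N N b hb.ge (u J.card) (hu0 _) (Fw L N) (fun c => by
        unfold Pool.Agent.H358R5.Fw
        split_ifs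
        · exact prod_nonneg fun _ _ => g_nonneg _ _
        · exact le_rfl)
      (fun c => (Fw_le L N b (u J.card) c).le) J.toList J.nodup_toList c
    rw [Finset.toList_toFinset] at h
    rw [hFJ]
    exact h
  have hsupp : ∀ J : Finset (Fin (K0 + 1)), 1 ≤ J.card → J.card ≤ m → ∀ c, FJ J c ≠ 0 →
      rad c ≤ (2 * N - 3) + 1 := by
    intro J hJ1 hJ c hc
    have h1 := hbd J c
    have h2 : GJ L N b (u J.card) J c ≠ 0 := by
      intro h0
      rw [h0] at h1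
      exact hc (le_antisymm h1.2 h1.1)
    unfold GJ at h2
    have h3 : ∑ j, (if j ∈ J then 0 else c j + 1) ≤ N := by
      by_contra hcon
      rw [if_neg hcon] at h2
      exact h2 rfl
    rw [if_pos h3] at h2
    have h4 : ∀ j ∈ J, c j + 1 ≤ l J.card := by
      intro j hj
      have h5 := (Finset.prod_ne_zero_iff.1 h2) j (mem_univ _)
      rw [if_pos hj] at h5
      have h6 : u J.card (c j) ≠ 0 := right_ne_zero_of_mul h5
      rw [hu] at h6
      by_contra hcon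
      rw [if_neg (by omega)] at h6
      exact h6 rfl
    have h5 : rad c = ∑ j, (if j ∈ J then 0 else c j + 1) + ∑ j ∈ J, (c j + 1) := by
      unfold rad
      have h6 : ∑ j ∈ J, (c j + 1) = ∑ j, if j ∈ J then c j + 1 else 0 := by
        rw [← sum_filter]
        congr 1
        ext j
        simp
      rw [h6, ← sum_add_distrib]
      refine sum_congr rfl fun j _ => ?_
      split_ifs <;> omega
    have h6 : ∑ j ∈ J, (c j + 1) ≤ J.card * l J.card := by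
      have := sum_le_card_nsmul J (fun j => c j + 1) (l J.card) h4
      rwa [smul_eq_mul] at this
    have h7 := hml J.card
    omega
  have hρ : ∀ J : Finset (Fin (K0 + 1)), 1 ≤ J.card → J.card ≤ m → ∑ c ∈ Box (K0 + 1) N, FJ J c ^ 2 <
      (24 * (m : ℝ) * J.card / ((K0 + 1 : ℕ) : ℝ)) ^ J.card * ∑ c ∈ Box (K0 + 1) N, Fw L N c ^ 2 := by
    intro J hJ1 hJ
    have hKr : (0 : ℝ) < ((K0 + 1 : ℕ) : ℝ) := by positivity
    have hl0 : (0 : ℝ) < l J.card := by exact_mod_cast hl1 J.card hJ1 hJ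
    have hj0 : (1 : ℝ) ≤ J.card := by exact_mod_cast hJ1
    have h1 : ∑ c ∈ Box (K0 + 1) N, FJ J c ^ 2 ≤ ∑ c ∈ Box (K0 + 1) N, GJ L N b (u J.card) J c ^ 2 :=
      sum_le_sum fun c _ => pow_le_pow_left₀ (hbd J c).1 (hbd J c).2 2
    rw [sum_GJ, hu2 J.card hJ1 hJ] at h1
    have h2 := ratio3 L (K0 + 1) N J.card hL100 (by omega) (hJ.trans hKm) hN8LK
    have h3 : b ^ 2 / l J.card * (5 / 2 * L) < 24 * (m : ℝ) * J.card / ((K0 + 1 : ℕ) : ℝ) := by
      rw [div_mul_eq_mul_div, div_lt_div_iff₀ hl0 hKr]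
      have h4 : b ^ 2 ≤ 36 * (m : ℝ) ^ 2 := by nlinarith
      have h5 : 0 < 5 / 2 * (L : ℝ) * ((K0 + 1 : ℕ) : ℝ) := by positivity
      have h6 : b ^ 2 * (5 / 2 * L) * ((K0 + 1 : ℕ) : ℝ) ≤
          36 * (m : ℝ) ^ 2 * (5 / 2 * (L : ℝ) * ((K0 + 1 : ℕ) : ℝ)) := by
        have := mul_le_mul_of_nonneg_right h4 h5.le
        linarith
      have h7 : 24 * (m : ℝ) * (39 / 10 * (m : ℝ) * ((L : ℝ) * ((K0 + 1 : ℕ) : ℝ))) ≤
          24 * (m : ℝ) * (J.card * l J.card) := by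
        apply mul_le_mul_of_nonneg_left _ (by positivity)
        push_cast
        exact hlbig J.card hJ1 hJ
      have h8 : 0 < (m : ℝ) ^ 2 * ((L : ℝ) * ((K0 + 1 : ℕ) : ℝ)) := by positivity
      nlinarith
    have h4 : (b ^ 2 / l J.card * (5 / 2 * L)) ^ J.card < (24 * (m : ℝ) * J.card / ((K0 + 1 : ℕ) : ℝ)) ^ J.card :=
      pow_lt_pow_left₀ h3 (by positivity) (by omega)
    rw [e1]
    calc _ ≤ (b ^ 2 / l J.card) ^ J.card * D L (K0 + 1 - J.card) N := h1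
      _ ≤ (b ^ 2 / l J.card) ^ J.card * ((5 / 2 * L) ^ J.card * D L (K0 + 1) N) :=
        mul_le_mul_of_nonneg_left h2 (by positivity)
      _ = (b ^ 2 / l J.card * (5 / 2 * L)) ^ J.card * D L (K0 + 1) N := by rw [mul_pow]; ring
      _ < _ := mul_lt_mul_of_pos_right h4 hDpos
  have hmain := an2 (K0 := K0) (N1 := N - 1) (M := N) (R := N - 1) (R' := 2 * N - 3) m r hr hrm (by omega)
    (by omega) le_rfl (Fw L N) (by
      intro c hc
      unfold Pool.Agent.H358R5.Fw at hc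
      have h1 : ∑ j, (c j + 1) ≤ N := by
        by_contra hcon
        rw [if_neg hcon] at hc
        exact hc rfl
      unfold rad
      omega) (by rw [e1]; exact hDpos) (by
      have e2 : ∀ i : Fin (K0 + 1), ∑ c ∈ Box K0 N, UU N (Fw L N) i c ^ 2 =
          ∑ s ∈ range (N + 1), Pool.Agent.H358R5.A L K0 s * Pool.Agent.H358R5.B L (N - s) ^ 2 := by
        intro i
        rw [← Pool.Agent.H358R5.FUU_proof Pool.Agent.H358R5.BOX_proof L N K0 i, hBox]
        refine Finset.sum_congr rfl fun c _ => ?_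
        simp [UU]
      have e3 := Finset.sum_congr (rfl : (univ : Finset (Fin (K0 + 1))) = univ) fun i _ => e2 i
      rw [e1, e3, Finset.sum_const, Finset.card_univ, Fintype.card_fin, nsmul_eq_mul]
      have h1 : ((N - 1 : ℕ) : ℝ) = (N : ℝ) - 1 := by
        rw [Nat.cast_sub (by omega)]; simp
      rw [h1]
      push_cast
      have h2 : 0 < 4 * (m : ℝ) * D L (K0 + 1) N := by positivity
      nlinarith [key])
    (univ.filter fun J : Finset (Fin (K0 + 1)) => 1 ≤ J.card ∧ J.card ≤ m) FJ (by omega)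
    (fun J hJ c hc => hsupp J (mem_filter.1 hJ).2.1 (mem_filter.1 hJ).2.2 c hc)
    (fun J hJ w hw => by
      rw [hFJ]
      exact El_sum (u J.card) (hu1 J.card (mem_filter.1 hJ).2.1 (mem_filter.1 hJ).2.2) (Fw L N) w J.toList
        fun i hi => hw i (Finset.mem_toList.1 hi))
    (fun J => (24 * (m : ℝ) * J.card / ((K0 + 1 : ℕ) : ℝ)) ^ J.card)
    (fun J hJ => hρ J (mem_filter.1 hJ).2.1 (mem_filter.1 hJ).2.2) A B hadm δ hδ0
  filter_upwards [hmain] with X hX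
  obtain ⟨W, S0, hS0, hW, h1, h2, h3⟩ := hX
  refine ⟨W, S0, hS0, hW, h1, fun J hJ1 hJ2 => h2 J (mem_filter.2 ⟨mem_univ _, hJ1, hJ2⟩), fun T hT => ?_⟩
  apply h3 T
  rw [mem_GX] at hT
  exact not_le.1 hT

end Pool.Agent.Helper50.SP
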