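import Mathlib
import Pool.Agent.Helper50.SP.Core2

/-! A probability distribution on the patterns with at least `r` elements, from the weights. -/

set_option autoImplicit false

open Finset Filter

namespace Pool.Agent.Helper50.SP

open Pool.Agent.H95R2.BG.LF (AdmissibleL)
open Pool.Agent.Y876.HS (GX mem_GX)

/-- the second moment of the number of the elements -/
theorem second_moment {K : ℕ} (W : Finset (Fin K) → ℝ) (α β : ℝ)
    (h1 : ∀ i : Fin K, ∑ T ∈ univ.filter (fun T => {i} ⊆ T), W T ≤ α)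
    (h2 : ∀ i j : Fin K, i ≠ j → ∑ T ∈ univ.filter (fun T => ({i, j} : Finset (Fin K)) ⊆ T), W T ≤ β) (hβ : 0 ≤ β) :
    ∑ T, (T.card : ℝ) ^ 2 * W T ≤ K * α + (K : ℝ) ^ 2 * β := by
  classical
  have e1 : ∀ T : Finset (Fin K), (T.card : ℝ) ^ 2 * W T = ∑ i, ∑ j, if i ∈ T ∧ j ∈ T then W T else 0 := by
    intro T
    have e2 : (T.card : ℝ) = ∑ i, if i ∈ T then (1 : ℝ) else 0 := by
      rw [← sum_filter, sum_const, nsmul_eq_mul, mul_one]
      congr 2
      ext j
      simp
    rw [e2, sq, sum_mul_sum, sum_mul]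
    refine sum_congr rfl fun i _ => ?_
    rw [sum_mul]
    refine sum_congr rfl fun j _ => ?_
    by_cases hi : i ∈ T <;> by_cases hj : j ∈ T <;> simp [hi, hj]
  simp_rw [e1]
  rw [sum_comm]
  have e3 : ∀ i : Fin K, ∑ T : Finset (Fin K), ∑ j, (if i ∈ T ∧ j ∈ T then W T else 0) ≤ α + K * β := by
    intro i
    rw [sum_comm, ← Finset.add_sum_erase _ _ (mem_univ i)]
    apply add_le_add
    · refine le_trans (le_of_eq ?_) (h1 i)
      rw [sum_filter]
      refine sum_congr rfl fun T _ => ?_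
      simp
    · calc ∑ j ∈ univ.erase i, ∑ T : Finset (Fin K), (if i ∈ T ∧ j ∈ T then W T else 0)
          ≤ ∑ _j ∈ (univ : Finset (Fin K)).erase i, β := by
            refine sum_le_sum fun j hj => ?_
            refine le_trans (le_of_eq ?_) (h2 i j (Finset.ne_of_mem_erase hj).symm)
            rw [sum_filter]
            refine sum_congr rfl fun T _ => ?_
            simp [insert_subset_iff]
        _ = (((univ : Finset (Fin K)).erase i).card : ℝ) * β := by rw [sum_const, nsmul_eq_mul]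
        _ ≤ K * β := by
            apply mul_le_mul_of_nonneg_right _ hβ
            have h3 := card_le_card (erase_subset i (univ : Finset (Fin K)))
            rw [card_univ, Fintype.card_fin] at h3
            exact_mod_cast h3
  calc _ ≤ ∑ _i : Fin K, (α + K * β) := sum_le_sum fun i _ => e3 i
    _ = _ := by
        rw [sum_const, card_univ, Fintype.card_fin, nsmul_eq_mul]
        ring

/-- **The distribution on the frequent patterns of `K` forms.** -/
theorem dist (m r K : ℕ) (hm : 2 ≤ m) (hr : 1 ≤ r) (hrm : r ≤ m)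
    (hK1 : 4 * (m : ℝ) + 29 / 50 ≤ Real.log K) (hK2 : Real.log K ≤ 4 * m + 1)
    (A B : Fin K → ℕ) (hadm : AdmissibleL A B) :
    ∀ᶠ X : ℝ in atTop, ∃ ν : Finset (Fin K) → ℝ, (∀ T, 0 ≤ ν T) ∧
      (∀ T, ν T ≠ 0 → T ∈ GX A B X ∧ r ≤ T.card) ∧ ∑ T, ν T = 1 ∧
      ∀ J : Finset (Fin K), 1 ≤ J.card → J.card ≤ m →
        ∑ T ∈ univ.filter (fun T => J ⊆ T), ν T ≤
          4632 * (m : ℝ) ^ 2 / ((m : ℝ) - r + 3 / 4) ^ 2 * (24 * (m : ℝ) * J.card / K) ^ J.card := by
  classical
  have hm' : (2 : ℝ) ≤ m := by exact_mod_cast hm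
  have hrm' : (r : ℝ) ≤ m := by exact_mod_cast hrm
  have hK0 : (0 : ℝ) < K := by
    by_contra hcon
    have h1 : (K : ℝ) = 0 := le_antisymm (not_lt.1 hcon) (Nat.cast_nonneg _)
    rw [h1, Real.log_zero] at hK1
    linarith
  obtain ⟨s, hs⟩ : ∃ s : ℝ, s = (m : ℝ) - r + 3 / 4 := ⟨_, rfl⟩
  have hs0 : 0 < s := by rw [hs]; linarith
  obtain ⟨θ, hθ⟩ : ∃ θ : ℝ, θ = s ^ 2 / (2316 * (m : ℝ) ^ 2) := ⟨_, rfl⟩
  have hθ0 : 0 < θ := by rw [hθ]; positivity
  have hδ0 : 0 < θ / (2 * 2 ^ K) := by positivity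
  filter_upwards [core2 m r K hm hr hrm hK1 hK2 A B hadm (θ / (2 * 2 ^ K)) hδ0] with X hX
  obtain ⟨W, S0, hS0, hW, h1, h2, h3⟩ := hX
  rw [← hs] at h1 ⊢
  -- the second moment
  have hsm : ∑ T, (T.card : ℝ) ^ 2 * W T ≤ 2316 * (m : ℝ) ^ 2 * S0 := by
    have h4 := second_moment W ((24 * (m : ℝ) / K) * S0) ((48 * (m : ℝ) / K) ^ 2 * S0) (fun i => by
        have := h2 {i} (by simp) (by simp; omega)
        refine this.trans (le_of_eq ?_)
        simp) (fun i j hij => by
        have := h2 {i, j} (by simp) (by rw [card_pair hij]; omega)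
        refine this.trans (le_of_eq ?_)
        rw [card_pair hij]
        push_cast
        ring) (by positivity)
    refine h4.trans ?_
    have e1 : (K : ℝ) * ((24 * (m : ℝ) / K) * S0) + (K : ℝ) ^ 2 * ((48 * (m : ℝ) / K) ^ 2 * S0) =
        (24 * (m : ℝ) + 2304 * (m : ℝ) ^ 2) * S0 := by
      field_simp
      ring
    rw [e1]
    apply mul_le_mul_of_nonneg_right _ hS0.le
    nlinarith
  -- the mass of the patterns with at least `r` elements
  have hmass : θ * S0 ≤ ∑ T ∈ univ.filter (fun T : Finset (Fin K) => r ≤ T.card), W T := by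
    have hCS := Finset.sum_sq_le_sum_mul_sum_of_sq_le_mul (univ.filter (fun T : Finset (Fin K) => r ≤ T.card))
      (r := fun T => (T.card : ℝ) * W T) (f := W) (g := fun T => (T.card : ℝ) ^ 2 * W T)
      (fun T _ => hW T) (fun T _ => mul_nonneg (sq_nonneg _) (hW T)) (fun T _ => le_of_eq (by ring))
    have h4 : ∑ T ∈ univ.filter (fun T : Finset (Fin K) => r ≤ T.card), (T.card : ℝ) ^ 2 * W T ≤
        2316 * (m : ℝ) ^ 2 * S0 := by
      refine le_trans ?_ hsm
      exact sum_le_sum_of_subset_of_nonneg (filter_subset _ _) fun T _ _ => mul_nonneg (sq_nonneg _) (hW T)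
    have h5 : (s * S0) ^ 2 ≤ (∑ T ∈ univ.filter (fun T : Finset (Fin K) => r ≤ T.card), W T) *
        (2316 * (m : ℝ) ^ 2 * S0) := by
      refine le_trans (pow_le_pow_left₀ (by positivity) h1 2) (hCS.trans ?_)
      exact mul_le_mul_of_nonneg_left h4 (sum_nonneg fun T _ => hW T)
    have h6 : 0 < 2316 * (m : ℝ) ^ 2 * S0 := by positivity
    refine le_of_mul_le_mul_right ?_ h6
    refine le_trans (le_of_eq ?_) h5
    rw [hθ]
    field_simp
  -- the frequent ones
  obtain ⟨Q, hQ⟩ : ∃ Q : Finset (Finset (Fin K)), Q = univ.filter (fun T : Finset (Fin K) =>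
      r ≤ T.card ∧ T ∈ GX A B X) := ⟨_, rfl⟩
  have hmQ : θ / 2 * S0 ≤ ∑ T ∈ Q, W T := by
    have e1 : ∑ T ∈ univ.filter (fun T : Finset (Fin K) => r ≤ T.card), W T = ∑ T ∈ Q, W T +
        ∑ T ∈ univ.filter (fun T : Finset (Fin K) => r ≤ T.card ∧ ¬ T ∈ GX A B X), W T := by
      rw [hQ, ← sum_filter_add_sum_filter_not (univ.filter (fun T : Finset (Fin K) => r ≤ T.card))
        (fun T => T ∈ GX A B X), filter_filter, filter_filter]
    have e2 : ∑ T ∈ univ.filter (fun T : Finset (Fin K) => r ≤ T.card ∧ ¬ T ∈ GX A B X), W T ≤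
        θ / 2 * S0 := by
      calc _ ≤ ∑ _T ∈ univ.filter (fun T : Finset (Fin K) => r ≤ T.card ∧ ¬ T ∈ GX A B X),
              (θ / (2 * 2 ^ K) * S0) := sum_le_sum fun T hT => h3 T (mem_filter.1 hT).2.2
        _ = ((univ.filter (fun T : Finset (Fin K) => r ≤ T.card ∧ ¬ T ∈ GX A B X)).card : ℝ) *
              (θ / (2 * 2 ^ K) * S0) := by rw [sum_const, nsmul_eq_mul]
        _ ≤ 2 ^ K * (θ / (2 * 2 ^ K) * S0) := by
            apply mul_le_mul_of_nonneg_right _ (by positivity)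
            have h : (univ.filter (fun T : Finset (Fin K) => r ≤ T.card ∧ ¬ T ∈ GX A B X)).card ≤ 2 ^ K := by
              refine (card_le_univ _).trans ?_
              rw [Fintype.card_finset, Fintype.card_fin]
            exact_mod_cast h
        _ = _ := by field_simp
    linarith
  obtain ⟨M, hM⟩ : ∃ M : ℝ, M = ∑ T ∈ Q, W T := ⟨_, rfl⟩
  rw [← hM] at hmQ
  have hM0 : 0 < M := lt_of_lt_of_le (by positivity) hmQ
  refine ⟨fun T => if T ∈ Q then W T / M else 0, fun T => ?_, fun T hT => ?_, ?_, fun J hJ1 hJ2 => ?_⟩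
  · dsimp only
    split_ifs
    · exact div_nonneg (hW T) hM0.le
    · exact le_rfl
  · have hTQ : T ∈ Q := by
      by_contra hcon
      exact hT (if_neg hcon)
    rw [hQ, mem_filter] at hTQ
    exact ⟨hTQ.2.2, hTQ.2.1⟩
  · rw [← sum_filter]
    have e1 : univ.filter (fun T => T ∈ Q) = Q := by ext T; simp
    rw [e1, ← sum_div, ← hM, div_self hM0.ne']
  · have e1 : ∑ T ∈ univ.filter (fun T => J ⊆ T), (if T ∈ Q then W T / M else 0) ≤
        (∑ T ∈ univ.filter (fun T => J ⊆ T), W T) / M := by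
      rw [sum_div]
      refine sum_le_sum fun T _ => ?_
      split_ifs
      · exact le_rfl
      · exact div_nonneg (hW T) hM0.le
    refine e1.trans ?_
    rw [div_le_iff₀ hM0]
    refine (h2 J hJ1 hJ2).trans ?_
    have h4 : 0 ≤ (24 * (m : ℝ) * J.card / K) ^ J.card := by positivity
    have h5 : S0 ≤ 4632 * (m : ℝ) ^ 2 / s ^ 2 * M := by
      have h6 : 4632 * (m : ℝ) ^ 2 / s ^ 2 * (θ / 2 * S0) = S0 := by
        rw [hθ]
        field_simp
        norm_num
      calc S0 = 4632 * (m : ℝ) ^ 2 / s ^ 2 * (θ / 2 * S0) := h6.symm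
        _ ≤ _ := mul_le_mul_of_nonneg_left hmQ (by positivity)
    calc _ ≤ (24 * (m : ℝ) * J.card / K) ^ J.card * (4632 * (m : ℝ) ^ 2 / s ^ 2 * M) :=
          mul_le_mul_of_nonneg_left h5 h4
      _ = _ := by ring

end Pool.Agent.Helper50.SP
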