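import Mathlib
import Pool.Graph.R_seed8.Y876.HS.Fin
import Pool.Agent.Helper50.SP.Dist

/-! The distribution on the exact patterns in a set of `K` shifts. -/

set_option autoImplicit false

open Finset Filter

namespace Pool.Agent.Helper50.SP

open Pool.Agent.H95R2.BG.LF (AdmissibleL)
open Pool.Agent.Y876.HS (GX mem_GX pat mem_pat BB)

/-- `n ≡ a (mod q)`, all `n + h`, `h ∈ P`, are prime, and there are no other primes in
`[n - R, n + max P + R]` -/
def Exactly (q a R : ℕ) (P : Finset ℕ) (n : ℕ) : Prop :=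
  n ≡ a [MOD q] ∧ (∀ h ∈ P, (n + h).Prime) ∧
    ∀ p : ℕ, p.Prime → n ≤ p + R → (∃ h ∈ P, p ≤ n + h + R) → ∃ h ∈ P, p = n + h

/-- the number of the `n ≤ x` at which `P` is an exact pattern -/
noncomputable def count (q a R : ℕ) (P : Finset ℕ) (x : ℝ) : ℕ :=
  Set.ncard {n : ℕ | (n : ℝ) ≤ x ∧ Exactly q a R P n}

/-- the pushforward of weights on the subsets of `Fin K` -/
theorem sum_push {K : ℕ} (S : Finset ℕ) (f : Fin K ↪ ℕ) (hf : ∀ i, f i ∈ S) (ν : Finset (Fin K) → ℝ)
    (Q : Finset ℕ → Prop) [DecidablePred Q] :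
    ∑ P ∈ S.powerset.filter Q, ∑ T ∈ univ.filter (fun T : Finset (Fin K) => T.map f = P), ν T =
      ∑ T ∈ univ.filter (fun T : Finset (Fin K) => Q (T.map f)), ν T := by
  classical
  have hmem : ∀ T : Finset (Fin K), T.map f ∈ S.powerset := by
    intro T
    rw [mem_powerset]
    intro x hx
    obtain ⟨i, _, rfl⟩ := Finset.mem_map.1 hx
    exact hf i
  rw [← sum_biUnion]
  · congr 1
    ext T
    simp only [mem_biUnion, mem_filter, mem_univ, true_and]
    constructor
    · rintro ⟨P, ⟨-, h1⟩, rfl⟩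
      exact h1
    · intro h
      exact ⟨_, ⟨hmem T, h⟩, rfl⟩
  · intro P _ P' _ hPP
    rw [Function.onFun, Finset.disjoint_left]
    intro T h1 h2
    exact hPP ((mem_filter.1 h1).2.symm.trans (mem_filter.1 h2).2)

theorem for_set (m r K : ℕ) (hm : 2 ≤ m) (hr : 1 ≤ r) (hrm : r ≤ m)
    (hK1 : 4 * (m : ℝ) + 29 / 50 ≤ Real.log K) (hK2 : Real.log K ≤ 4 * m + 1)
    (S : Finset ℕ) (hS : S.card = K) (hadm : ∀ p : ℕ, p.Prime → ∃ t : ℕ, ∀ v ∈ S, ¬ p ∣ t + v)
    (q a : ℕ) (hq : 1 ≤ q) (hcop : ∀ v ∈ S, Nat.Coprime (a + v) q) (R : ℕ) :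
    ∀ᶠ x : ℝ in atTop, ∃ ν : Finset ℕ → ℝ, (∀ P, 0 ≤ ν P) ∧
      (∀ P, ν P ≠ 0 → P ⊆ S ∧ r ≤ P.card ∧ x / Real.log x ^ (BB K + 1) ≤ count q a R P x) ∧
      ∑ P ∈ S.powerset, ν P = 1 ∧
      ∀ U : Finset ℕ, 1 ≤ U.card → U.card ≤ m →
        ∑ P ∈ S.powerset.filter (fun P => U ⊆ P), ν P ≤
          4632 * (m : ℝ) ^ 2 / ((m : ℝ) - r + 3 / 4) ^ 2 * (24 * (m : ℝ) * U.card / K) ^ U.card := by
  classical
  obtain ⟨f, hf, hfs⟩ : ∃ f : Fin K ↪ ℕ, (∀ i, f i ∈ S) ∧ ∀ v ∈ S, ∃ i, f i = v := by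
    refine ⟨(S.equivFinOfCardEq hS).symm.toEmbedding.trans (Function.Embedding.subtype _), fun i => by simp, ?_⟩
    intro v hv
    exact ⟨S.equivFinOfCardEq hS ⟨v, hv⟩, by simp⟩
  obtain ⟨D, hD⟩ : ∃ D : ℕ, D = 2 * R + S.sup id := ⟨_, rfl⟩
  have hSD : ∀ v ∈ S, v + 2 * R ≤ D := by
    intro v hv
    have h1 : v ≤ S.sup id := le_sup (f := id) hv
    omega
  obtain ⟨a', ha'⟩ : ∃ a' : ℕ, a' = a + (q - 1) * R := ⟨_, rfl⟩
  have haR : a' + R = a + q * R := by
    obtain ⟨q', rfl⟩ : ∃ q', q = q' + 1 := ⟨q - 1, by omega⟩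
    rw [ha', Nat.add_sub_cancel]
    ring
  -- the congruences
  obtain ⟨S', hS'⟩ : ∃ S' : Finset (Fin (D + 1)), S' = univ.filter (fun j : Fin (D + 1) => ∃ v ∈ S, v + R = (j : ℕ)) :=
    ⟨_, rfl⟩
  obtain ⟨W, ν₀, hW, h1, h2⟩ := Pool.Agent.TH779.Shat.congruences (fun _ : Fin (D + 1) => q)
    (fun j : Fin (D + 1) => a' + (j : ℕ)) (fun _ => hq)
    (by
      intro i j hij h1
      have h2 := Nat.eq_of_mul_eq_mul_left hq h1
      exact hij (Fin.ext (by omega))) S' S'ᶜ disjoint_compl_left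
  obtain ⟨ν, hν⟩ : ∃ ν : ℕ, ν = ν₀ + W := ⟨_, rfl⟩
  have h1' : ∀ j : ℕ, j ≤ D → (∀ v ∈ S, v + R ≠ j) → ∃ p : ℕ, p.Prime ∧ p ∣ W ∧ p ∣ q * ν + (a' + j) := by
    intro j hj hjS
    obtain ⟨p, hp, hpW, hp2⟩ := h1 ⟨j, by omega⟩ (by
      rw [mem_compl, hS', mem_filter]
      rintro ⟨-, v, hv, hvj⟩
      exact hjS v hv hvj)
    refine ⟨p, hp, hpW, ?_⟩
    simp only at hp2
    have e : q * ν + (a' + j) = (q * ν₀ + (a' + j)) + W * q := by rw [hν]; ring
    rw [e]
    exact dvd_add hp2 (hpW.mul_right _)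
  have h2' : ∀ p : ℕ, p.Prime → p ∣ W → ∀ v ∈ S, ¬ p ∣ q * ν + (a' + (v + R)) := by
    intro p hp hpW v hv hd
    have hvD : v + R < D + 1 := by have := hSD v hv; omega
    apply h2 p hp hpW ⟨v + R, hvD⟩ (by rw [hS', mem_filter]; exact ⟨mem_univ _, v, hv, rfl⟩)
    simp only
    have e : q * ν + (a' + (v + R)) = (q * ν₀ + (a' + (v + R))) + W * q := by rw [hν]; ring
    rw [e] at hd
    exact (Nat.dvd_add_left (hpW.mul_right _)).1 hd
  -- the forms
  obtain ⟨A, hA⟩ : ∃ A : Fin K → ℕ, ∀ i, A i = q * W := ⟨_, fun _ => rfl⟩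
  obtain ⟨B, hB⟩ : ∃ B : Fin K → ℕ, ∀ i, B i = q * ν + (a' + (f i + R)) := ⟨_, fun _ => rfl⟩
  have hqW : 1 ≤ q * W := Nat.mul_pos hq hW
  have hAdm : AdmissibleL A B := by
    refine ⟨fun i => by rw [hA]; exact hqW, fun i j hij h => ?_, fun p hp => ?_⟩
    · rw [hA, hA, hB, hB] at h
      have h3 := Nat.eq_of_mul_eq_mul_left hqW h
      exact hij (f.injective (by omega))
    · by_cases hpW : p ∣ q * W
      · refine ⟨0, fun i hd => ?_⟩
        rw [mul_zero, zero_add, hB] at hd
        rcases (Nat.Prime.dvd_mul hp).1 hpW with h3 | h3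
        · have e : q * ν + (a' + (f i + R)) = q * (ν + R) + (a + f i) := by
            have : q * ν + (a' + (f i + R)) = q * ν + ((a' + R) + f i) := by ring
            rw [this, haR]
            ring
          rw [e] at hd
          have h4 : p ∣ a + f i := (Nat.dvd_add_right (h3.mul_right _)).1 hd
          have h5 : p ∣ 1 := by
            rw [← hcop (f i) (hf i)]
            exact Nat.dvd_gcd h4 h3
          exact hp.one_lt.ne' (Nat.dvd_one.1 h5)
        · exact h2' p hp h3 (f i) (hf i) hd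
      · obtain ⟨t, ht⟩ := hadm p hp
        have : Fact p.Prime := ⟨hp⟩
        have hpq : ¬ p ∣ q := fun h => hpW (h.mul_right _)
        have hpW' : ¬ p ∣ W := fun h => hpW (h.mul_left _)
        have hqZ : (q : ZMod p) ≠ 0 := fun h => hpq ((ZMod.natCast_eq_zero_iff _ _).1 h)
        have hWZ : (W : ZMod p) ≠ 0 := fun h => hpW' ((ZMod.natCast_eq_zero_iff _ _).1 h)
        refine ⟨(((t : ZMod p) - a' - R - q * ν) / (q * W)).val, fun i hd => ?_⟩
        rw [hA, hB, ← ZMod.natCast_eq_zero_iff] at hd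
        push_cast at hd
        rw [ZMod.natCast_zmod_val] at hd
        apply ht (f i) (hf i)
        rw [← ZMod.natCast_eq_zero_iff]
        push_cast
        rw [← hd]
        field_simp
        ring
  obtain ⟨c, hc⟩ : ∃ c : ℕ, c = q * ν + a' + R := ⟨_, rfl⟩
  have hmain := dist m r K hm hr hrm hK1 hK2 A B hAdm
  have hqWr : (1 : ℝ) ≤ q * W := by exact_mod_cast hqW
  have ht : Tendsto (fun x : ℝ => (x - c) / (3 * (q * W))) atTop atTop :=
    (tendsto_atTop_add_const_right _ _ tendsto_id).atTop_div_const (by positivity)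
  filter_upwards [ht.eventually hmain, Pool.Agent.Y876.HS.log_shift c (3 * (q * W)) (Nat.cast_nonneg _)
    (by linarith) (BB K), eventually_ge_atTop (c : ℝ)] with x hx hx2 hx3
  obtain ⟨ν', hν1, hν2, hν3, hν4⟩ := hx
  refine ⟨fun P => ∑ T ∈ univ.filter (fun T : Finset (Fin K) => T.map f = P), ν' T, fun P =>
    sum_nonneg fun T _ => hν1 T, fun P hP => ?_, ?_, fun U hU1 hU2 => ?_⟩
  · obtain ⟨T, hT, hT0⟩ := Finset.exists_ne_zero_of_sum_ne_zero hP
    obtain ⟨-, rfl⟩ := mem_filter.1 hT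
    obtain ⟨hTG, hTr⟩ := hν2 T hT0
    refine ⟨?_, by rw [card_map]; exact hTr, ?_⟩
    · intro v hv
      obtain ⟨i, _, rfl⟩ := Finset.mem_map.1 hv
      exact hf i
    refine hx2.trans (((mem_GX A B _ T).1 hTG).trans ?_)
    unfold count
    refine Nat.cast_le.2 ?_
    rw [← Set.ncard_coe_finset]
    refine Set.ncard_le_ncard_of_injOn (fun t => q * (W * t + ν) + a' + R) ?_ ?_ ?_
    · intro t ht
      have hX0 : 0 ≤ (x - c) / (3 * ((q : ℝ) * W)) := div_nonneg (by linarith) (by positivity)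
      rw [mem_coe, mem_filter, mem_Icc, Nat.le_floor_iff (by linarith)] at ht
      obtain ⟨⟨ht1, ht2⟩, ht3⟩ := ht
      have hval : ∀ v : ℕ, q * (W * t + ν) + a' + R + v = q * W * t + (q * ν + (a' + (v + R))) := by
        intro v; ring
      refine ⟨?_, ?_, ?_, ?_⟩
      · have h7 : 3 * ((x - c) / (3 * ((q : ℝ) * W))) = (x - c) / (q * W) := by field_simp
        rw [h7, le_div_iff₀ (by positivity)] at ht2
        rw [hc] at ht2
        push_cast at ht2 ⊢
        linarith
      · have e : q * (W * t + ν) + a' + R = a + q * (W * t + ν + R) := by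
          have : q * (W * t + ν) + a' + R = q * (W * t + ν) + (a' + R) := by ring
          rw [this, haR]
          ring
        show q * (W * t + ν) + a' + R ≡ a [MOD q]
        rw [e]
        exact (Nat.modEq_iff_dvd' (by omega)).2 ⟨W * t + ν + R, by omega⟩ |>.symm
      · intro v hv
        obtain ⟨i, hi, rfl⟩ := Finset.mem_map.1 hv
        rw [← ht3, mem_pat, hA, hB] at hi
        show (q * (W * t + ν) + a' + R + f i).Prime
        rw [hval]
        exact hi
      · intro p hp hpR hpP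
        have hpR' : q * (W * t + ν) + a' + R ≤ p + R := hpR
        obtain ⟨h, hh, hph⟩ := hpP
        have hph' : p ≤ q * (W * t + ν) + a' + R + h + R := hph
        obtain ⟨i, hi, rfl⟩ := Finset.mem_map.1 hh
        obtain ⟨j, hj⟩ : ∃ j, p = q * (W * t + ν) + a' + j := ⟨p - (q * (W * t + ν) + a'), by omega⟩
        have hjD : j ≤ D := by
          have := hSD (f i) (hf i)
          omega
        by_cases hjS : ∃ v ∈ S, v + R = j
        · obtain ⟨v, hv, rfl⟩ := hjS
          obtain ⟨i', rfl⟩ := hfs v hv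
          have e : p = q * W * t + (q * ν + (a' + (f i' + R))) := by rw [hj]; ring
          refine ⟨f i', Finset.mem_map.2 ⟨i', ?_, rfl⟩, ?_⟩
          · rw [← ht3, mem_pat, hA, hB, ← e]
            exact hp
          · show p = q * (W * t + ν) + a' + R + f i'
            rw [hj]; ring
        · exfalso
          push Not at hjS
          obtain ⟨p', hp', hpW, hpd⟩ := h1' j hjD hjS
          have h3 : p' ∣ p := by
            have e : p = W * (q * t) + (q * ν + (a' + j)) := by rw [hj]; ring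
            rw [e]
            exact dvd_add (hpW.mul_right _) hpd
          have h4 : p' = p := (Nat.prime_dvd_prime_iff_eq hp' hp).1 h3
          have h5 : p' ≤ W := Nat.le_of_dvd hW hpW
          have h6 : W + W ≤ W * t + ν := by
            have : W * 1 ≤ W * t := Nat.mul_le_mul_left _ ht1
            omega
          have h7 : 1 * (W * t + ν) ≤ q * (W * t + ν) := Nat.mul_le_mul_right _ hq
          omega
    · intro t _ t' _ h
      have h5 : q * (W * t + ν) = q * (W * t' + ν) := by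
        have : q * (W * t + ν) + a' + R = q * (W * t' + ν) + a' + R := h
        omega
      have h6 := Nat.eq_of_mul_eq_mul_left hq h5
      have h7 : W * t = W * t' := by omega
      exact Nat.eq_of_mul_eq_mul_left hW h7
    · apply (Set.finite_Iic ⌊x⌋₊).subset
      intro n hn
      exact Nat.le_floor hn.1
  · have := sum_push S f hf ν' (fun _ => True)
    simp only [filter_true] at this
    rw [this, hν3]
  · rw [sum_push S f hf ν' (fun P => U ⊆ P)]
    by_cases hUS : U ⊆ S
    · obtain ⟨J, hJ⟩ : ∃ J : Finset (Fin K), J = univ.filter (fun i => f i ∈ U) := ⟨_, rfl⟩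
      have hJU : J.map f = U := by
        ext v
        rw [Finset.mem_map]
        constructor
        · rintro ⟨i, hi, rfl⟩
          rw [hJ, mem_filter] at hi
          exact hi.2
        · intro hv
          obtain ⟨i, rfl⟩ := hfs v (hUS hv)
          exact ⟨i, by rw [hJ, mem_filter]; exact ⟨mem_univ _, hv⟩, rfl⟩
      have hcard : J.card = U.card := by rw [← hJU, card_map]
      have h3 := hν4 J (by omega) (by omega)
      rw [hcard] at h3
      refine le_trans (le_of_eq ?_) h3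
      congr 1
      ext T
      simp only [mem_filter, mem_univ, true_and]
      rw [← hJU, map_subset_map]
    · have e : univ.filter (fun T : Finset (Fin K) => U ⊆ T.map f) = ∅ := by
        rw [filter_eq_empty_iff]
        intro T _ h
        apply hUS
        refine h.trans ?_
        intro v hv
        obtain ⟨i, _, rfl⟩ := Finset.mem_map.1 hv
        exact hf i
      rw [e, sum_empty]
      positivity

end Pool.Agent.Helper50.SP
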