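import Mathlib
import Pool.Agent.Helper50.SP.ForSet

/-! The distribution on the exact patterns in an arbitrary large set of shifts. -/

set_option autoImplicit false

open Finset Filter

namespace Pool.Agent.Helper50.SP

open Pool.Agent.Y876.HS (BB)

/-- `C(n - j, k - j) / C(n, k) ≤ (k / n) ^ j` -/
theorem choose_ratio (n k : ℕ) (hkn : k ≤ n) : ∀ j : ℕ, j ≤ k →
    (((n - j).choose (k - j) : ℕ) : ℝ) * (n : ℝ) ^ j ≤ ((n.choose k : ℕ) : ℝ) * (k : ℝ) ^ j := by
  intro j
  induction j with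
  | zero => intro _; simp
  | succ j ih =>
    intro hj
    have h1 := ih (by omega)
    obtain ⟨n', hn'⟩ : ∃ n', n - j = n' + 1 := ⟨n - j - 1, by omega⟩
    obtain ⟨k', hk'⟩ : ∃ k', k - j = k' + 1 := ⟨k - j - 1, by omega⟩
    have e1 : n - (j + 1) = n' := by omega
    have e2 : k - (j + 1) = k' := by omega
    rw [e1, e2]
    rw [hn', hk'] at h1
    have h2 := Nat.add_one_mul_choose_eq n' k'
    have h2' : ((n' : ℝ) + 1) * (n'.choose k' : ℕ) = ((n' + 1).choose (k' + 1) : ℕ) * ((k' : ℝ) + 1) := by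
      exact_mod_cast h2
    have hn1 : (n : ℝ) = n' + 1 + j := by
      have : n = n' + 1 + j := by omega
      exact_mod_cast this
    have hk1 : (k : ℝ) = k' + 1 + j := by
      have : k = k' + 1 + j := by omega
      exact_mod_cast this
    have hkn' : (k' : ℝ) ≤ n' := by
      have : k' ≤ n' := by omega
      exact_mod_cast this
    have hj0 : (0 : ℝ) ≤ j := Nat.cast_nonneg _
    have hn0 : (0 : ℝ) < (n' : ℝ) + 1 := by positivity
    -- `C' n ≤ C k`
    have h3 : ((n'.choose k' : ℕ) : ℝ) * n ≤ (((n' + 1).choose (k' + 1) : ℕ) : ℝ) * k := by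
      refine le_of_mul_le_mul_left ?_ hn0
      have h4 : (0 : ℝ) ≤ (((n' + 1).choose (k' + 1) : ℕ) : ℝ) := Nat.cast_nonneg _
      calc ((n' : ℝ) + 1) * (((n'.choose k' : ℕ) : ℝ) * n) =
          (((n' : ℝ) + 1) * ((n'.choose k' : ℕ) : ℝ)) * n := by ring
        _ = (((n' + 1).choose (k' + 1) : ℕ) : ℝ) * (((k' : ℝ) + 1) * n) := by rw [h2']; ring
        _ ≤ (((n' + 1).choose (k' + 1) : ℕ) : ℝ) * (((n' : ℝ) + 1) * k) := by
            apply mul_le_mul_of_nonneg_left _ h4
            rw [hn1, hk1]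
            nlinarith
        _ = _ := by ring
    calc ((n'.choose k' : ℕ) : ℝ) * (n : ℝ) ^ (j + 1) = (((n'.choose k' : ℕ) : ℝ) * n) * (n : ℝ) ^ j := by ring
      _ ≤ ((((n' + 1).choose (k' + 1) : ℕ) : ℝ) * k) * (n : ℝ) ^ j :=
          mul_le_mul_of_nonneg_right h3 (by positivity)
      _ = ((((n' + 1).choose (k' + 1) : ℕ) : ℝ) * (n : ℝ) ^ j) * k := by ring
      _ ≤ (((n.choose k : ℕ) : ℝ) * (k : ℝ) ^ j) * k :=
          mul_le_mul_of_nonneg_right h1 (Nat.cast_nonneg _)
      _ = _ := by ring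

/-- the number of the `K`-element subsets of `V` which contain `U` -/
theorem card_supersets (V U : Finset ℕ) (hU : U ⊆ V) (K : ℕ) (hK : U.card ≤ K) :
    ((V.powersetCard K).filter (fun S => U ⊆ S)).card = (V.card - U.card).choose (K - U.card) := by
  classical
  rw [← card_sdiff_of_subset hU, ← card_powersetCard]
  apply card_bij' (fun S _ => S \ U) (fun S _ => S ∪ U)
  · intro S hS
    rw [mem_filter, mem_powersetCard] at hS
    rw [mem_powersetCard]
    refine ⟨sdiff_subset_sdiff hS.1.1 (Subset.refl U), ?_⟩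
    rw [card_sdiff_of_subset hS.2, hS.1.2]
  · intro S hS
    rw [mem_powersetCard] at hS
    rw [mem_filter, mem_powersetCard]
    have hdis : Disjoint S U := by
      rw [Finset.disjoint_left]
      intro x hx hxU
      exact (mem_sdiff.1 (hS.1 hx)).2 hxU
    refine ⟨⟨union_subset (hS.1.trans sdiff_subset) hU, ?_⟩, subset_union_right⟩
    rw [card_union_of_disjoint hdis, hS.2]
    omega
  · intro S hS
    rw [mem_filter] at hS
    exact sdiff_union_of_subset hS.2
  · intro S hS
    rw [mem_powersetCard] at hS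
    have hdis : Disjoint S U := by
      rw [Finset.disjoint_left]
      intro x hx hxU
      exact (mem_sdiff.1 (hS.1 hx)).2 hxU
    rw [union_sdiff_right, sdiff_eq_self_of_disjoint hdis]

/-- averaging of distributions over the `K`-element subsets of `V` -/
theorem average (V : Finset ℕ) (K m : ℕ) (hK1 : 1 ≤ K) (hKV : K ≤ V.card) (C₁ b : ℝ) (hC₁ : 0 ≤ C₁) (hb : 0 ≤ b)
    (ν : Finset ℕ → Finset ℕ → ℝ) (h0 : ∀ S ∈ V.powersetCard K, ∀ P, 0 ≤ ν S P)
    (h1 : ∀ S ∈ V.powersetCard K, ∀ P, ν S P ≠ 0 → P ⊆ S)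
    (h2 : ∀ S ∈ V.powersetCard K, ∑ P ∈ S.powerset, ν S P = 1)
    (h3 : ∀ S ∈ V.powersetCard K, ∀ U : Finset ℕ, 1 ≤ U.card → U.card ≤ m →
      ∑ P ∈ S.powerset.filter (fun P => U ⊆ P), ν S P ≤ C₁ * (b * U.card / K) ^ U.card)
    (μ : Finset ℕ → ℝ) (hμ : ∀ P, μ P = (∑ S ∈ V.powersetCard K, ν S P) / ((V.card.choose K : ℕ) : ℝ)) :
    (∀ P, 0 ≤ μ P) ∧ (∀ P, μ P ≠ 0 → ∃ S ∈ V.powersetCard K, ν S P ≠ 0) ∧ ∑ P ∈ V.powerset, μ P = 1 ∧
      ∀ U : Finset ℕ, 1 ≤ U.card → U.card ≤ m →
        ∑ P ∈ V.powerset.filter (fun P => U ⊆ P), μ P ≤ C₁ * (b * U.card / V.card) ^ U.card := by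
  classical
  have hchoose : (0 : ℝ) < ((V.card.choose K : ℕ) : ℝ) := by
    exact_mod_cast Nat.choose_pos hKV
  have hV0 : (0 : ℝ) < V.card := by
    have : 0 < V.card := by omega
    exact_mod_cast this
  have hK0 : (0 : ℝ) < K := by exact_mod_cast hK1
  have key : ∀ S ∈ V.powersetCard K, ∀ (Q : Finset ℕ → Prop) [DecidablePred Q],
      ∑ P ∈ V.powerset.filter Q, ν S P = ∑ P ∈ S.powerset.filter Q, ν S P := by
    intro S hS Q _
    symm
    apply sum_subset
    · intro P hP
      rw [mem_filter, mem_powerset] at hP ⊢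
      exact ⟨hP.1.trans (mem_powersetCard.1 hS).1, hP.2⟩
    · intro P hP hPS
      by_contra hne
      apply hPS
      rw [mem_filter, mem_powerset]
      exact ⟨h1 S hS P hne, (mem_filter.1 hP).2⟩
  refine ⟨fun P => ?_, fun P hP => ?_, ?_, fun U hU1 hU2 => ?_⟩
  · rw [hμ]
    exact div_nonneg (sum_nonneg fun S hS => h0 S hS P) hchoose.le
  · rw [hμ] at hP
    exact Finset.exists_ne_zero_of_sum_ne_zero (fun h => hP (by rw [h, zero_div]))
  · simp_rw [hμ]
    rw [← sum_div, sum_comm]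
    have e1 : ∀ S ∈ V.powersetCard K, ∑ P ∈ V.powerset, ν S P = 1 := by
      intro S hS
      have := key S hS (fun _ => True)
      simp only [filter_true] at this
      rw [this]
      exact h2 S hS
    rw [sum_congr rfl e1, sum_const, card_powersetCard, nsmul_eq_mul, mul_one, div_self hchoose.ne']
  · simp_rw [hμ]
    rw [← sum_div, sum_comm, div_le_iff₀ hchoose]
    by_cases hUV : U ⊆ V
    · by_cases hUK : U.card ≤ K
      · have e1 : ∑ S ∈ V.powersetCard K, ∑ P ∈ V.powerset.filter (fun P => U ⊆ P), ν S P ≤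
            ∑ S ∈ V.powersetCard K, if U ⊆ S then C₁ * (b * U.card / K) ^ U.card else 0 := by
          refine sum_le_sum fun S hS => ?_
          rw [key S hS]
          split_ifs with hUS
          · exact h3 S hS U hU1 hU2
          · apply le_of_eq
            have e : S.powerset.filter (fun P => U ⊆ P) = ∅ := by
              rw [filter_eq_empty_iff]
              intro P hP hUP
              exact hUS (hUP.trans (mem_powerset.1 hP))
            rw [e, sum_empty]
        refine e1.trans ?_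
        rw [← sum_filter, sum_const, nsmul_eq_mul, card_supersets V U hUV K hUK]
        have h4 := choose_ratio V.card K hKV U.card hUK
        have h5 : 0 ≤ C₁ * (b * U.card / K) ^ U.card / (V.card : ℝ) ^ U.card := by positivity
        have h6 := mul_le_mul_of_nonneg_right h4 h5
        refine le_trans (le_of_eq ?_) (h6.trans (le_of_eq ?_))
        · field_simp
        · rw [div_pow, div_pow]
          field_simp
      · have e1 : ∑ S ∈ V.powersetCard K, ∑ P ∈ V.powerset.filter (fun P => U ⊆ P), ν S P = 0 := by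
          apply sum_eq_zero
          intro S hS
          rw [key S hS]
          have e : S.powerset.filter (fun P => U ⊆ P) = ∅ := by
            rw [filter_eq_empty_iff]
            intro P hP hUP
            have h4 := card_le_card (hUP.trans (mem_powerset.1 hP))
            rw [(mem_powersetCard.1 hS).2] at h4
            exact hUK h4
          rw [e, sum_empty]
        rw [e1]
        positivity
    · have e : V.powerset.filter (fun P => U ⊆ P) = ∅ := by
        rw [filter_eq_empty_iff]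
        intro P hP hUP
        exact hUV (hUP.trans (mem_powerset.1 hP))
      rw [e]
      simp only [sum_empty, sum_const_zero]
      positivity

/-- a number `K` with `4 m + 0.58 ≤ log K ≤ 4 m + 1` -/
theorem exists_K (m : ℕ) (hm : 2 ≤ m) : ∃ K : ℕ, 1 ≤ K ∧ 4 * (m : ℝ) + 29 / 50 ≤ Real.log K ∧
    Real.log K ≤ 4 * m + 1 := by
  have hm' : (2 : ℝ) ≤ m := by exact_mod_cast hm
  have he : (1 : ℝ) ≤ Real.exp (4 * m + 1) := Real.one_le_exp (by linarith)
  refine ⟨⌊Real.exp (4 * m + 1)⌋₊, ?_, ?_, ?_⟩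
  · exact Nat.le_floor (by exact_mod_cast he)
  · have h1 : Real.exp (4 * m + 1) - 1 < (⌊Real.exp (4 * m + 1)⌋₊ : ℝ) := Nat.sub_one_lt_floor _
    have h3 : Real.exp (4 * (m : ℝ) + 29 / 50) * Real.exp (21 / 50) = Real.exp (4 * m + 1) := by
      rw [← Real.exp_add]
      congr 1
      ring
    have h4 : 1 + 21 / 50 ≤ Real.exp (21 / 50) := by
      have := Real.add_one_le_exp (21 / 50 : ℝ)
      linarith
    have h5 : (4 * (m : ℝ) + 29 / 50) + 1 ≤ Real.exp (4 * (m : ℝ) + 29 / 50) := Real.add_one_le_exp _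
    have h6 : 0 < Real.exp (4 * (m : ℝ) + 29 / 50) := Real.exp_pos _
    rw [Real.le_log_iff_exp_le (by
      have : (1 : ℝ) ≤ (⌊Real.exp (4 * m + 1)⌋₊ : ℝ) := by
        exact_mod_cast Nat.le_floor (by exact_mod_cast he)
      linarith)]
    nlinarith
  · have h1 : (⌊Real.exp (4 * m + 1)⌋₊ : ℝ) ≤ Real.exp (4 * m + 1) := Nat.floor_le (Real.exp_pos _).le
    have h2 : (0 : ℝ) < (⌊Real.exp (4 * m + 1)⌋₊ : ℝ) := by
      have : (1 : ℝ) ≤ (⌊Real.exp (4 * m + 1)⌋₊ : ℝ) := by
        exact_mod_cast Nat.le_floor (by exact_mod_cast he)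
      linarith
    calc Real.log (⌊Real.exp (4 * m + 1)⌋₊ : ℝ) ≤ Real.log (Real.exp (4 * m + 1)) := Real.log_le_log h2 h1
      _ = _ := Real.log_exp _

end Pool.Agent.Helper50.SP
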