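import Mathlib
import Pool.Agent.Helper50.SP.Avg

/-! Spread distributions on exact patterns: the main theorem. -/

set_option autoImplicit false

open Finset Filter

namespace Pool.Agent.Helper50.SP

open Pool.Agent.Y876.HS (BB)

/-- a probability distribution on the subsets of `V` with at least `m` elements for which the probability of
containing a given set `U` of at most `m` elements is at most `(C m |U| / |V|) ^ |U|` -/
def Spread (C : ℝ) (m : ℕ) (V : Finset ℕ) (μ : Finset ℕ → ℝ) : Prop :=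
  (∀ P, 0 ≤ μ P) ∧ (∀ P, μ P ≠ 0 → P ⊆ V ∧ m ≤ P.card) ∧ ∑ P ∈ V.powerset, μ P = 1 ∧
    ∀ U ⊆ V, U.card ≤ m →
      ∑ P ∈ V.powerset with U ⊆ P, μ P ≤ (C * m * U.card / V.card) ^ U.card

/-- the sieve parameters -/
theorem params (ε : ℝ) (hε : 0 < ε) (hε1 : ε ≤ 1) (r : ℕ) (hr : 1 ≤ r) : ∃ m K : ℕ, 2 ≤ m ∧ r ≤ m ∧ 1 ≤ K ∧
    4 * (m : ℝ) + 29 / 50 ≤ Real.log K ∧ Real.log K ≤ 4 * m + 1 ∧ Real.log K ≤ (4 + ε) * r + 9 ∧
    4632 * (m : ℝ) ^ 2 / ((m : ℝ) - r + 3 / 4) ^ 2 ≤ 4632 * 1024 / ε ^ 2 ∧ 24 * (m : ℝ) ≤ 96 * r := by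
  have hr' : (1 : ℝ) ≤ r := by exact_mod_cast hr
  obtain ⟨e, he⟩ : ∃ e : ℕ, e = ⌈ε / 8 * r⌉₊ := ⟨_, rfl⟩
  have he0 : 0 < ε / 8 * r := by positivity
  have he1 : ε / 8 * r ≤ e := by rw [he]; exact Nat.le_ceil _
  have he2 : (e : ℝ) < ε / 8 * r + 1 := by rw [he]; exact Nat.ceil_lt_add_one he0.le
  have he3 : 1 ≤ e := by
    have : (0 : ℝ) < e := lt_of_lt_of_le he0 he1
    exact_mod_cast this
  obtain ⟨m, hm⟩ : ∃ m : ℕ, m = r + e := ⟨_, rfl⟩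
  have hm' : (m : ℝ) = r + e := by rw [hm]; push_cast; ring
  obtain ⟨K, hK0, hK1, hK2⟩ := exists_K m (by omega)
  have hεr : ε * r ≤ r := by nlinarith
  refine ⟨m, K, by omega, by omega, hK0, hK1, hK2, ?_, ?_, ?_⟩
  · refine hK2.trans ?_
    rw [hm']
    nlinarith
  · have h1 : ε / 8 * r ≤ (m : ℝ) - r + 3 / 4 := by rw [hm']; linarith
    have h2 : (m : ℝ) ≤ 4 * r := by rw [hm']; linarith
    have h3 : (ε / 8 * r) ^ 2 ≤ ((m : ℝ) - r + 3 / 4) ^ 2 := pow_le_pow_left₀ he0.le h1 2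
    have h4 : (m : ℝ) ^ 2 ≤ (4 * r) ^ 2 := pow_le_pow_left₀ (Nat.cast_nonneg _) h2 2
    have h5 : 0 < (m : ℝ) - r + 3 / 4 := by linarith
    rw [div_le_div_iff₀ (pow_pos h5 2) (by positivity)]
    calc 4632 * (m : ℝ) ^ 2 * ε ^ 2 ≤ 4632 * (4 * r) ^ 2 * ε ^ 2 := by gcongr
      _ = 4632 * 1024 * (ε / 8 * r) ^ 2 := by ring
      _ ≤ _ := by gcongr
  · rw [hm']
    linarith

theorem at_R (ε : ℝ) (hε : 0 < ε) (hε1 : ε ≤ 1) (r : ℕ) (hr : 1 ≤ r) : ∃ B : ℕ, ∀ V : Finset ℕ,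
    (4 + ε) * r + 9 ≤ Real.log V.card → (∀ p : ℕ, p.Prime → ∃ t : ℕ, ∀ v ∈ V, ¬ p ∣ t + v) →
    ∀ q a : ℕ, 1 ≤ q → (∀ v ∈ V, Nat.Coprime (a + v) q) → ∀ R : ℕ,
    ∀ᶠ x : ℝ in atTop, ∃ μ : Finset ℕ → ℝ, Spread (96 * (4632 * 1024 / ε ^ 2)) r V μ ∧
      ∀ P, μ P ≠ 0 → x / Real.log x ^ B ≤ count q a R P x := by
  classical
  obtain ⟨m, K, hm, hrm, hK0, hK1, hK2, hK3, hC, hmr⟩ := params ε hε hε1 r hr
  refine ⟨BB K + 1, fun V hV hadm q a hq hcop R => ?_⟩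
  have hr' : (1 : ℝ) ≤ r := by exact_mod_cast hr
  have hV0 : (0 : ℝ) < V.card := by
    by_contra hcon
    have h1 : (V.card : ℝ) = 0 := le_antisymm (not_lt.1 hcon) (Nat.cast_nonneg _)
    rw [h1, Real.log_zero] at hV
    nlinarith
  have hK0' : (0 : ℝ) < K := by exact_mod_cast hK0
  have hKV : K ≤ V.card := by
    have h1 := (Real.log_le_log_iff hK0' hV0).1 (hK3.trans hV)
    exact_mod_cast h1
  have hev : ∀ᶠ x : ℝ in atTop, ∀ S ∈ V.powersetCard K, ∃ ν : Finset ℕ → ℝ, (∀ P, 0 ≤ ν P) ∧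
      (∀ P, ν P ≠ 0 → P ⊆ S ∧ r ≤ P.card ∧ x / Real.log x ^ (BB K + 1) ≤ count q a R P x) ∧
      ∑ P ∈ S.powerset, ν P = 1 ∧
      ∀ U : Finset ℕ, 1 ≤ U.card → U.card ≤ m →
        ∑ P ∈ S.powerset.filter (fun P => U ⊆ P), ν P ≤
          4632 * (m : ℝ) ^ 2 / ((m : ℝ) - r + 3 / 4) ^ 2 * (24 * (m : ℝ) * U.card / K) ^ U.card := by
    rw [Filter.eventually_all_finset]
    intro S hS
    rw [mem_powersetCard] at hS
    exact for_set m r K hm hr hrm hK1 hK2 S hS.2 (fun p hp => by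
      obtain ⟨t, ht⟩ := hadm p hp
      exact ⟨t, fun v hv => ht v (hS.1 hv)⟩) q a hq (fun v hv => hcop v (hS.1 hv)) R
  filter_upwards [hev] with x hx
  choose ν hν1 hν2 hν3 hν4 using hx
  -- extend to all sets
  obtain ⟨ν', hν'⟩ : ∃ ν' : Finset ℕ → Finset ℕ → ℝ, ∀ S (hS : S ∈ V.powersetCard K), ν' S = ν S hS :=
    ⟨fun S => if hS : S ∈ V.powersetCard K then ν S hS else fun _ => 0, fun S hS => by simp only [dif_pos hS]⟩
  have hC1 : 0 ≤ 4632 * (m : ℝ) ^ 2 / ((m : ℝ) - r + 3 / 4) ^ 2 := by positivity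
  obtain ⟨hμ1, hμ2, hμ3, hμ4⟩ := average V K m hK0 hKV _ (24 * (m : ℝ)) hC1 (by positivity) ν'
    (fun S hS P => by rw [hν' S hS]; exact hν1 S hS P)
    (fun S hS P hP => by rw [hν' S hS] at hP; exact (hν2 S hS P hP).1)
    (fun S hS => by rw [hν' S hS]; exact hν3 S hS)
    (fun S hS U h1 h2 => by rw [hν' S hS]; exact hν4 S hS U h1 h2)
    (fun P => (∑ S ∈ V.powersetCard K, ν' S P) / ((V.card.choose K : ℕ) : ℝ)) (fun _ => rfl)
  refine ⟨_, ⟨hμ1, fun P hP => ?_, hμ3, fun U hU hUr => ?_⟩, fun P hP => ?_⟩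
  · obtain ⟨S, hS, hSP⟩ := hμ2 P hP
    rw [hν' S hS] at hSP
    obtain ⟨h1, h2, -⟩ := hν2 S hS P hSP
    exact ⟨h1.trans (mem_powersetCard.1 hS).1, h2⟩
  · rcases Nat.eq_zero_or_pos U.card with h0 | h0
    · have hU0 : U = ∅ := card_eq_zero.1 h0
      subst hU0
      simp only [empty_subset, filter_true, card_empty, pow_zero]
      exact hμ3.le
    · refine (hμ4 U h0 (by omega)).trans ?_
      have hb : 24 * (m : ℝ) * U.card / V.card ≤ 96 * r * U.card / V.card := by gcongr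
      have h5 : (0 : ℝ) ≤ 24 * (m : ℝ) * U.card / V.card := by positivity
      have hE : (1 : ℝ) ≤ 4632 * 1024 / ε ^ 2 := by
        rw [le_div_iff₀ (by positivity)]
        nlinarith
      calc _ ≤ (4632 * 1024 / ε ^ 2) * (96 * r * U.card / V.card) ^ U.card := by
            apply mul_le_mul hC (pow_le_pow_left₀ h5 hb _) (by positivity) (by positivity)
        _ ≤ (4632 * 1024 / ε ^ 2) ^ U.card * (96 * r * U.card / V.card) ^ U.card := by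
            apply mul_le_mul_of_nonneg_right _ (by positivity)
            exact le_self_pow₀ hE (by omega)
        _ = _ := by
            rw [← mul_pow]
            congr 1
            ring
  · obtain ⟨S, hS, hSP⟩ := hμ2 P hP
    rw [hν' S hS] at hSP
    exact (hν2 S hS P hSP).2.2

/-- a larger margin is a stronger property -/
theorem exactly_mono {q a R R' : ℕ} (h : R ≤ R') {P : Finset ℕ} {n : ℕ} (hn : Exactly q a R' P n) :
    Exactly q a R P n := by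
  obtain ⟨h1, h2, h3⟩ := hn
  refine ⟨h1, h2, fun p hp hp1 hp2 => h3 p hp (by omega) ?_⟩
  obtain ⟨y, hy, hy2⟩ := hp2
  exact ⟨y, hy, by omega⟩

theorem count_mono {q a R R' : ℕ} (h : R ≤ R') (P : Finset ℕ) (x : ℝ) :
    count q a R' P x ≤ count q a R P x := by
  unfold count
  refine Set.ncard_le_ncard ?_ ?_
  · intro n hn
    exact ⟨hn.1, exactly_mono h hn.2⟩
  · apply (Set.finite_Iic ⌊x⌋₊).subset
    intro n hn
    exact Nat.le_floor hn.1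

/-- **Main theorem.** -/
theorem main (ε : ℝ) (hε : 0 < ε) : ∃ C : ℝ, 0 < C ∧ ∀ m : ℕ, 1 ≤ m → ∃ B : ℕ, ∀ V : Finset ℕ,
    (4 + ε) * m + C ≤ Real.log V.card → (∀ p : ℕ, p.Prime → ∃ t : ℕ, ∀ v ∈ V, ¬ p ∣ t + v) →
    ∀ q a : ℕ, 1 ≤ q → (∀ v ∈ V, Nat.Coprime (a + v) q) →
    (∀ R : ℕ, ∀ᶠ x : ℝ in atTop, ∃ μ : Finset ℕ → ℝ, Spread C m V μ ∧
      ∀ P, μ P ≠ 0 → x / Real.log x ^ B ≤ count q a R P x) ∧
    ∃ μ : Finset ℕ → ℝ, Spread C m V μ ∧ ∀ R : ℕ, ∃ᶠ x : ℝ in atTop,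
      ∀ P, μ P ≠ 0 → x / Real.log x ^ B ≤ count q a R P x := by
  classical
  obtain ⟨η, hη, hη1, hηε⟩ : ∃ η : ℝ, 0 < η ∧ η ≤ 1 ∧ η ≤ ε :=
    ⟨min ε 1, lt_min hε one_pos, min_le_right _ _, min_le_left _ _⟩
  obtain ⟨C, hC⟩ : ∃ C : ℝ, C = 96 * (4632 * 1024 / η ^ 2) := ⟨_, rfl⟩
  have hE : (1 : ℝ) ≤ 4632 * 1024 / η ^ 2 := by
    rw [le_div_iff₀ (by positivity)]
    nlinarith
  have hC9 : 9 ≤ C := by rw [hC]; linarith
  refine ⟨C, by linarith, fun m hm => ?_⟩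
  obtain ⟨B, hB⟩ := at_R η hη hη1 m hm
  refine ⟨B, fun V hV hadm q a hq hcop => ?_⟩
  have hm0 : (0 : ℝ) ≤ m := Nat.cast_nonneg _
  have hV' : (4 + η) * m + 9 ≤ Real.log V.card := by
    have : η * m ≤ ε * m := mul_le_mul_of_nonneg_right hηε hm0
    linarith
  have h1 := hB V hV' hadm q a hq hcop
  rw [← hC] at h1
  refine ⟨h1, ?_⟩
  -- one distribution for all `R`
  have h2 : ∀ R : ℕ, ∃ F : Finset {P // P ∈ V.powerset}, ∃ᶠ x : ℝ in atTop,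
      (∃ μ : Finset ℕ → ℝ, Spread C m V μ ∧ ∀ P, μ P ≠ 0 → ∃ hP : P ∈ V.powerset, ⟨P, hP⟩ ∈ F) ∧
      ∀ P ∈ F, x / Real.log x ^ B ≤ count q a R P.1 x := by
    intro R
    apply Pool.Agent.Y876.DS.freq_pigeon
    filter_upwards [h1 R] with x hx
    obtain ⟨μ, hμ, hμ2⟩ := hx
    refine ⟨univ.filter (fun P => μ P.1 ≠ 0), ⟨μ, hμ, fun P hP => ?_⟩, fun P hP => ?_⟩
    · have hPV : P ∈ V.powerset := mem_powerset.2 (hμ.2.1 P hP).1
      exact ⟨hPV, mem_filter.2 ⟨mem_univ _, hP⟩⟩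
    · exact hμ2 P.1 (mem_filter.1 hP).2
  choose F hF using h2
  obtain ⟨F₀, hF₀⟩ := Finite.exists_infinite_fiber F
  have hF₀' : (F ⁻¹' {F₀}).Infinite := Set.infinite_coe_iff.1 hF₀
  obtain ⟨R₀, hR₀⟩ := hF₀'.nonempty
  have hR₀' : F R₀ = F₀ := hR₀
  obtain ⟨x₀, ⟨μ, hμ, hμF⟩, -⟩ := (hF R₀).exists
  rw [hR₀'] at hμF
  refine ⟨μ, hμ, fun R => ?_⟩
  obtain ⟨R', hR', hRR⟩ := hF₀'.exists_gt R
  have hR'' : F R' = F₀ := hR'
  have h3 := hF R'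
  rw [hR''] at h3
  refine h3.mono fun x hx P hP => ?_
  obtain ⟨hPV, hPF⟩ := hμF P hP
  refine (hx.2 _ hPF).trans ?_
  exact_mod_cast count_mono hRR.le P x

end Pool.Agent.Helper50.SP
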